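import Pool.Agent.W_7d29a1_Z21.Def
import Pool.Agent.W_7d29a1_Z.Act

/-!
STORM Z, Lemma NS: almost all paths are typical (`TypP21`). Quenched: given the positions at the times `i` and `i + n + m`, the
position at the time `i + n` takes a value whose weight is `exp Q` times smaller than the weight of another value with the
conditional probability at most `exp (- Q)`; union over the values and the times. (helper62)
-/

namespace Pool.Agent.W_7d29a1_Z21

open MeasureTheory ProbabilityTheory Filter Topology Finset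
open Pool.Agent.W_7d29a1_F Pool.Agent.W_7d29a1_G Pool.Agent.W_7d29a1_X Pool.Agent.W_7d29a1_Z
open scoped ENNReal

variable {μ : Measure ℝ}

/-- A weight function of the last position. -/
private lemma ty_last (η : Env) (t : ℕ) (F : Finset ℕ → ℝ) (g : Finset ℕ → ℝ) (x : ℤ)
    (h : ∀ S : Finset ℕ, pos S t = x → F S = g S) : Mt μ 0 η t F x = Mt μ 0 η t g x := by
  unfold Mt
  refine sum_congr rfl fun S _ => ?_
  split_ifs with h1
  · rw [h S h1]
  · rfl

/-- The law of the positions at three times. -/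
theorem sum_three62 (η : Env) (i n m l : ℕ) (y : ℤ) (G : ℤ → ℤ → ℤ → ℝ) :
    Mt μ 0 η (i + n + m + l) (fun S => G (pos S i) (pos S (i + n)) (pos S (i + n + m))) y =
      ∑ q ∈ Icc (0 : ℤ) ((i + n + m : ℕ) : ℤ), ∑ a ∈ Icc (0 : ℤ) ((i + n : ℕ) : ℤ), ∑ p ∈ Icc (0 : ℤ) (i : ℤ),
        G p a q * (W μ 0 η 0 i p * W μ 0 η ((i : ℤ), p) n (a - p) * W μ 0 η (((i + n : ℕ) : ℤ), a) m (q - a) *
          W μ 0 η (((i + n + m : ℕ) : ℤ), q) l (y - q)) := by
  have e1 : (fun S => G (pos S i) (pos S (i + n)) (pos S (i + n + m))) = fun S : Finset ℕ =>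
      (fun T : Finset ℕ => G (pos T i) (pos T (i + n)) (pos T (i + n + m))) (S ∩ range (i + n + m)) := by
    funext S
    simp only
    rw [pos_inter S (show i ≤ i + n + m by omega), pos_inter S (show i + n ≤ i + n + m by omega), pos_inter S (le_refl (i + n + m))]
  rw [e1, Mt_add η (i + n + m) l (fun T : Finset ℕ => G (pos T i) (pos T (i + n)) (pos T (i + n + m))) y]
  refine sum_congr rfl fun q _ => ?_
  have e2 : Mt μ 0 η (i + n + m) (fun T : Finset ℕ => G (pos T i) (pos T (i + n)) (pos T (i + n + m))) q =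
      Mt μ 0 η (i + n + m) (fun S : Finset ℕ => (fun T : Finset ℕ => G (pos T i) (pos T (i + n)) q) (S ∩ range (i + n))) q := by
    refine ty_last η _ _ _ q fun S hS => ?_
    simp only
    rw [hS, pos_inter S (show i ≤ i + n by omega), pos_inter S (le_refl (i + n))]
  rw [e2, Mt_add η (i + n) m (fun T : Finset ℕ => G (pos T i) (pos T (i + n)) q) q, sum_mul]
  refine sum_congr rfl fun a _ => ?_
  have e3 : Mt μ 0 η (i + n) (fun T : Finset ℕ => G (pos T i) (pos T (i + n)) q) a =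
      Mt μ 0 η (i + n) (fun S : Finset ℕ => (fun T : Finset ℕ => G (pos T i) a q) (S ∩ range i)) a := by
    refine ty_last η _ _ _ a fun S hS => ?_
    simp only
    rw [hS, pos_inter S le_rfl]
  rw [e3, Mt_add η i n (fun T : Finset ℕ => G (pos T i) a q) a, sum_mul, sum_mul]
  refine sum_congr rfl fun p _ => ?_
  have e4 : Mt μ 0 η i (fun T : Finset ℕ => G (pos T i) a q) p = G p a q * Mt μ 0 η i (fun _ => 1) p := by
    unfold Mt
    rw [mul_sum]
    refine sum_congr rfl fun S _ => ?_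
    split_ifs with h
    · simp only
      rw [h]
      ring
    · ring
  rw [e4, Mt_one]
  ring

/-- The middle point `a` is much worse than another one. -/
def Bd62 (μ : Measure ℝ) (Q : ℝ) (η : Env) (i n m : ℕ) (p a q : ℤ) : Prop :=
  ∃ k : ℤ, 0 ≤ k ∧ k ≤ n ∧ Real.exp Q * (W μ 0 η ((i : ℤ), p) n (a - p) * W μ 0 η ((i : ℤ) + n, a) m (q - a)) <
    W μ 0 η ((i : ℤ), p) n k * W μ 0 η ((i : ℤ) + n, p + k) m (q - p - k)

theorem bd62_le {Q : ℝ} {η : Env} {i n m : ℕ} {p a q : ℤ} (h : Bd62 μ Q η i n m p a q) :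
    W μ 0 η ((i : ℤ), p) n (a - p) * W μ 0 η ((i : ℤ) + n, a) m (q - a) ≤ Real.exp (-Q) * W μ 0 η ((i : ℤ), p) (n + m) (q - p) := by
  obtain ⟨k, _, _, h3⟩ := h
  have h4 := W_mul_le (μ := μ) (s := 0) η ((i : ℤ), p) n m k (q - p - k)
  have e1 : k + (q - p - k) = q - p := by ring
  rw [e1] at h4
  have h5 := (h3.trans_le h4).le
  have h6 := mul_le_mul_of_nonneg_left h5 (Real.exp_pos (-Q)).le
  rw [← mul_assoc, ← Real.exp_add, neg_add_cancel, Real.exp_zero, one_mul] at h6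
  exact h6

/-- The quenched weight of the paths with a bad middle point at given times. -/
theorem quen62 (η : Env) {Q : ℝ} (i n m l : ℕ) (y : ℤ) [DecidablePred fun S : Finset ℕ => Bd62 μ Q η i n m (pos S i) (pos S (i + n)) (pos S (i + n + m))] :
    Mt μ 0 η (i + n + m + l) (fun S => if Bd62 μ Q η i n m (pos S i) (pos S (i + n)) (pos S (i + n + m)) then 1 else 0) y ≤
      ((i + n : ℕ) + 1 : ℝ) * Real.exp (-Q) * W μ 0 η 0 (i + n + m + l) y := by
  classical
  have e0 : (fun S => if Bd62 μ Q η i n m (pos S i) (pos S (i + n)) (pos S (i + n + m)) then (1 : ℝ) else 0) =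
      fun S : Finset ℕ => (fun p a q : ℤ => if Bd62 μ Q η i n m p a q then (1 : ℝ) else 0) (pos S i) (pos S (i + n)) (pos S (i + n + m)) := by
    funext S
    simp only
    split_ifs <;> rfl
  rw [e0, sum_three62 η i n m l y (fun p a q : ℤ => if Bd62 μ Q η i n m p a q then (1 : ℝ) else 0)]
  have hc1 : (((i + n : ℕ) : ℤ)) = (i : ℤ) + n := by push_cast; ring
  have h1 : ∀ q ∈ Icc (0 : ℤ) ((i + n + m : ℕ) : ℤ), ∀ a ∈ Icc (0 : ℤ) ((i + n : ℕ) : ℤ), ∀ p ∈ Icc (0 : ℤ) (i : ℤ),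
      (if Bd62 μ Q η i n m p a q then (1 : ℝ) else 0) * (W μ 0 η 0 i p * W μ 0 η ((i : ℤ), p) n (a - p) *
        W μ 0 η (((i + n : ℕ) : ℤ), a) m (q - a) * W μ 0 η (((i + n + m : ℕ) : ℤ), q) l (y - q)) ≤
      Real.exp (-Q) * ((W μ 0 η 0 i p * W μ 0 η ((i : ℤ), p) (n + m) (q - p)) * W μ 0 η (((i + n + m : ℕ) : ℤ), q) l (y - q)) := by
    intro q _ a _ p _
    have a1 : 0 ≤ W μ 0 η 0 i p := W_nonneg _ _ _ _
    have a2 : 0 ≤ W μ 0 η (((i + n + m : ℕ) : ℤ), q) l (y - q) := W_nonneg _ _ _ _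
    have a3 : 0 ≤ W μ 0 η ((i : ℤ), p) (n + m) (q - p) := W_nonneg _ _ _ _
    split_ifs with h
    · have h2 := bd62_le h
      rw [← hc1] at h2
      have h3 := mul_le_mul_of_nonneg_right (mul_le_mul_of_nonneg_left h2 a1) a2
      calc _ = W μ 0 η 0 i p * (W μ 0 η ((i : ℤ), p) n (a - p) * W μ 0 η (((i + n : ℕ) : ℤ), a) m (q - a)) *
            W μ 0 η (((i + n + m : ℕ) : ℤ), q) l (y - q) := by ring
        _ ≤ _ := h3
        _ = _ := by ring
    · rw [zero_mul]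
      positivity
  have h2 : ∀ q : ℤ, ∑ p ∈ Icc (0 : ℤ) (i : ℤ), W μ 0 η 0 i p * W μ 0 η ((i : ℤ), p) (n + m) (q - p) = W μ 0 η 0 (i + n + m) q := by
    intro q
    have h3 := W_add (μ := μ) (s := 0) η (0 : Pt) i (n + m) q
    rw [show i + n + m = i + (n + m) by ring, h3]
    refine sum_congr rfl fun p _ => ?_
    have e3 : (((0 : Pt).1 + (i : ℤ), (0 : Pt).2 + p) : Pt) = ((i : ℤ), p) := by
      refine Prod.ext ?_ ?_
      · show (0 : ℤ) + i = i
        ring
      · show (0 : ℤ) + p = p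
        ring
    rw [e3]
  have h3 : ∑ q ∈ Icc (0 : ℤ) ((i + n + m : ℕ) : ℤ), W μ 0 η 0 (i + n + m) q * W μ 0 η (((i + n + m : ℕ) : ℤ), q) l (y - q) =
      W μ 0 η 0 (i + n + m + l) y := by
    rw [W_add (μ := μ) (s := 0) η (0 : Pt) (i + n + m) l y]
    refine sum_congr rfl fun q _ => ?_
    have e3 : (((0 : Pt).1 + ((i + n + m : ℕ) : ℤ), (0 : Pt).2 + q) : Pt) = (((i + n + m : ℕ) : ℤ), q) := by
      refine Prod.ext ?_ ?_
      · show (0 : ℤ) + _ = _
        ring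
      · show (0 : ℤ) + q = q
        ring
    rw [e3]
  calc ∑ q ∈ Icc (0 : ℤ) ((i + n + m : ℕ) : ℤ), ∑ a ∈ Icc (0 : ℤ) ((i + n : ℕ) : ℤ), ∑ p ∈ Icc (0 : ℤ) (i : ℤ),
        (if Bd62 μ Q η i n m p a q then (1 : ℝ) else 0) * (W μ 0 η 0 i p * W μ 0 η ((i : ℤ), p) n (a - p) *
        W μ 0 η (((i + n : ℕ) : ℤ), a) m (q - a) * W μ 0 η (((i + n + m : ℕ) : ℤ), q) l (y - q))
      ≤ ∑ q ∈ Icc (0 : ℤ) ((i + n + m : ℕ) : ℤ), ∑ a ∈ Icc (0 : ℤ) ((i + n : ℕ) : ℤ), ∑ p ∈ Icc (0 : ℤ) (i : ℤ),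
        Real.exp (-Q) * ((W μ 0 η 0 i p * W μ 0 η ((i : ℤ), p) (n + m) (q - p)) * W μ 0 η (((i + n + m : ℕ) : ℤ), q) l (y - q)) :=
        sum_le_sum fun q hq => sum_le_sum fun a ha => sum_le_sum fun p hp => h1 q hq a ha p hp
    _ = ∑ q ∈ Icc (0 : ℤ) ((i + n + m : ℕ) : ℤ), ∑ a ∈ Icc (0 : ℤ) ((i + n : ℕ) : ℤ),
        Real.exp (-Q) * (W μ 0 η 0 (i + n + m) q * W μ 0 η (((i + n + m : ℕ) : ℤ), q) l (y - q)) := by
        refine sum_congr rfl fun q _ => sum_congr rfl fun a _ => ?_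
        rw [← mul_sum, ← sum_mul, h2]
    _ = ((i + n : ℕ) + 1 : ℝ) * Real.exp (-Q) * W μ 0 η 0 (i + n + m + l) y := by
        rw [← h3, mul_sum]
        refine sum_congr rfl fun q _ => ?_
        rw [sum_const, Int.card_Icc, nsmul_eq_mul]
        have e4 : (((i + n : ℕ) : ℤ) + 1 - 0).toNat = i + n + 1 := by omega
        rw [e4]
        push_cast
        ring

theorem typ_ms62 (Q : ℝ) (N : ℕ) : Ms (fun η S => ¬ Typ21 μ Q N η (pos S)) := by
  intro S
  refine MeasurableSet.compl (s := {η : Env | Typ21 μ Q N η (pos S)}) ?_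
  have e1 : {η : Env | Typ21 μ Q N η (pos S)} = ⋂ i : ℕ, ⋂ n : ℕ, ⋂ m : ℕ, ⋂ (_ : i + n + m ≤ N), ⋂ k : ℤ, ⋂ (_ : 0 ≤ k), ⋂ (_ : k ≤ n),
      {η : Env | W μ 0 η ((i : ℤ), pos S i) n k * W μ 0 η ((i : ℤ) + n, pos S i + k) m (pos S (i + n + m) - pos S i - k) ≤
        Real.exp Q * (W μ 0 η ((i : ℤ), pos S i) n (pos S (i + n) - pos S i) *
          W μ 0 η ((i : ℤ) + n, pos S (i + n)) m (pos S (i + n + m) - pos S (i + n)))} := by
    ext η
    simp only [Typ21, Set.mem_ofPred_eq, Set.mem_iInter]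
  rw [e1]
  refine MeasurableSet.iInter fun i => MeasurableSet.iInter fun n => MeasurableSet.iInter fun m => MeasurableSet.iInter fun _ =>
    MeasurableSet.iInter fun k => MeasurableSet.iInter fun _ => MeasurableSet.iInter fun _ => ?_
  exact measurableSet_le ((measurable_W _ _ _).mul (measurable_W _ _ _)) (((measurable_W _ _ _).mul (measurable_W _ _ _)).const_mul _)

/-- **Almost all paths are typical.** -/
theorem typP21 [IsProbabilityMeasure μ] : TypP21 μ := by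
  classical
  intro N y Q h0 h1
  refine P1_quenched (typ_ms62 Q N) (by positivity) fun η => ?_
  have hW : 0 < W μ 0 η 0 N y := W_pos _ _ h0 h1
  obtain ⟨I, hI⟩ : ∃ I : Finset (ℕ × ℕ × ℕ), I = (range (N + 1) ×ˢ range (N + 1) ×ˢ range (N + 1)).filter fun q => q.1 + q.2.1 + q.2.2 ≤ N :=
    ⟨_, rfl⟩
  have hcard : (I.card : ℝ) ≤ ((N : ℝ) + 1) ^ 3 := by
    have a1 : I.card ≤ (N + 1) ^ 3 := by
      rw [hI]
      refine (card_filter_le _ _).trans (le_of_eq ?_)
      rw [card_product, card_product, card_range]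
      ring
    have a2 : ((I.card : ℕ) : ℝ) ≤ (((N + 1) ^ 3 : ℕ) : ℝ) := by exact_mod_cast a1
    refine a2.trans (le_of_eq ?_)
    push_cast
    ring
  -- one triple of times
  have hone : ∀ q ∈ I, ∑ S ∈ (range N).powerset, (if Bd62 μ Q η q.1 q.2.1 q.2.2 (pos S q.1) (pos S (q.1 + q.2.1))
      (pos S (q.1 + q.2.1 + q.2.2)) then gp μ η N y S else 0) ≤ ((N : ℝ) + 1) * Real.exp (-Q) := by
    rintro ⟨i, n, m⟩ hq
    rw [hI, mem_filter] at hq
    obtain ⟨l, hl⟩ : ∃ l, N = i + n + m + l := ⟨N - (i + n + m), by have := hq.2; simp only at this; omega⟩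
    simp only
    have e1 : ∑ S ∈ (range N).powerset, (if Bd62 μ Q η i n m (pos S i) (pos S (i + n)) (pos S (i + n + m)) then gp μ η N y S else 0) =
        Mt μ 0 η N (fun S => if Bd62 μ Q η i n m (pos S i) (pos S (i + n)) (pos S (i + n + m)) then 1 else 0) y / W μ 0 η 0 N y := by
      unfold Mt gp
      rw [sum_div]
      refine sum_congr rfl fun S _ => ?_
      beta_reduce
      by_cases hB : Bd62 μ Q η i n m (pos S i) (pos S (i + n)) (pos S (i + n + m))
      · by_cases hy : pos S N = y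
        · rw [if_pos hB, if_pos hy, if_pos hy, if_pos hB, mul_one]
        · rw [if_pos hB, if_neg hy, if_neg hy, zero_div]
      · by_cases hy : pos S N = y
        · rw [if_neg hB, if_pos hy, if_neg hB, mul_zero, zero_div]
        · rw [if_neg hB, if_neg hy, zero_div]
    rw [e1, div_le_iff₀ hW]
    subst hl
    refine (quen62 η i n m l y).trans (mul_le_mul_of_nonneg_right (mul_le_mul_of_nonneg_right ?_ (Real.exp_nonneg _)) hW.le)
    push_cast
    have a1 : (0 : ℝ) ≤ m := Nat.cast_nonneg _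
    have a2 : (0 : ℝ) ≤ l := Nat.cast_nonneg _
    linarith
  refine (sum_le_sum (g := fun S => ∑ q ∈ I, (if Bd62 μ Q η q.1 q.2.1 q.2.2 (pos S q.1) (pos S (q.1 + q.2.1))
      (pos S (q.1 + q.2.1 + q.2.2)) then gp μ η N y S else 0)) fun S _ => ?_).trans ?_
  · have hnn : ∀ q ∈ I, 0 ≤ (if Bd62 μ Q η q.1 q.2.1 q.2.2 (pos S q.1) (pos S (q.1 + q.2.1)) (pos S (q.1 + q.2.1 + q.2.2)) then
        gp μ η N y S else 0) := by
      intro q _
      split_ifs
      · exact gp_nonneg _ _ _ _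
      · exact le_rfl
    by_cases h : Typ21 μ Q N η (pos S)
    · rw [if_neg (not_not.2 h)]
      exact sum_nonneg hnn
    · rw [if_pos h]
      unfold Typ21 at h
      push Not at h
      obtain ⟨i, n, m, hN, k, hk0, hk1, hlt⟩ := h
      have hmem : ((i, n, m) : ℕ × ℕ × ℕ) ∈ I := by
        rw [hI, mem_filter, mem_product, mem_product, mem_range, mem_range, mem_range]
        refine ⟨⟨?_, ?_, ?_⟩, hN⟩
        · show i < N + 1
          omega
        · show n < N + 1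
          omega
        · show m < N + 1
          omega
      refine le_trans (le_of_eq ?_) (single_le_sum hnn hmem)
      have hB : Bd62 μ Q η i n m (pos S i) (pos S (i + n)) (pos S (i + n + m)) := ⟨k, hk0, hk1, hlt⟩
      simp only
      rw [if_pos hB]
  calc ∑ S ∈ (range N).powerset, ∑ q ∈ I, (if Bd62 μ Q η q.1 q.2.1 q.2.2 (pos S q.1) (pos S (q.1 + q.2.1))
        (pos S (q.1 + q.2.1 + q.2.2)) then gp μ η N y S else 0)
    _ = ∑ q ∈ I, ∑ S ∈ (range N).powerset, (if Bd62 μ Q η q.1 q.2.1 q.2.2 (pos S q.1) (pos S (q.1 + q.2.1))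
        (pos S (q.1 + q.2.1 + q.2.2)) then gp μ η N y S else 0) := sum_comm
    _ ≤ ∑ q ∈ I, ((N : ℝ) + 1) * Real.exp (-Q) := sum_le_sum hone
    _ = I.card * (((N : ℝ) + 1) * Real.exp (-Q)) := by rw [sum_const, nsmul_eq_mul]
    _ ≤ ((N : ℝ) + 1) ^ 3 * (((N : ℝ) + 1) * Real.exp (-Q)) := mul_le_mul_of_nonneg_right hcard (by positivity)
    _ = ((N : ℝ) + 1) ^ 4 * Real.exp (-Q) := by ring

end Pool.Agent.W_7d29a1_Z21
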