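import Pool.Agent.W_7d29a1_SR.Defs
import Pool.Agent.W_7d29a1_G.Unit2a
import Pool.Agent.W_7d29a1_Z.Defs

/-!
STORM Z, Lemma NS (no steep places): the definitions. (helper21)
-/

namespace Pool.Agent.W_7d29a1_Z21

open MeasureTheory ProbabilityTheory Filter Topology
open Pool.Agent.W_7d29a1_F Pool.Agent.W_7d29a1_G Pool.Agent.W_7d29a1_X Pool.Agent.W_7d29a1_SR

noncomputable section

/-- The tilt which belongs to a slope. -/
def th21 (μ : Measure ℝ) (g v : ℝ) : ℝ := g * J μ v / v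

/-- The rate function with a linear continuation beyond `v₀`. -/
def Jt21 (μ : Measure ℝ) (v₀ u : ℝ) : ℝ := if u ≤ v₀ then J μ u else J μ v₀ / v₀ * u

/-- The energy (in `J`) of the displacement `(n, y)`. -/
def ph21 (μ : Measure ℝ) (n : ℕ) (y : ℤ) : ℝ := n * J μ (|(y : ℝ) - n / 2| / n)

/-- The regular environments up to the time `R`: energy of the displacements to the right (constant `b`, slopes beyond `v₀`
linearly), luck and tilted luck (tilts of the slopes of the displacements `(m, y)` to the right) of the starts in the box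
`|x| ≤ 3 R`. `Q` is the size of the errors. -/
structure Env21 (μ : Measure ℝ) (c b Q d g v₀ : ℝ) (n₁ R : ℕ) (η : Env) : Prop where
  en : ∀ (t x : ℤ) (n : ℕ) (y : ℤ), 0 ≤ t → t + n ≤ R → |x| ≤ 3 * R → 1 ≤ n → (n : ℤ) < 2 * y → y ≤ n →
    b * (n * Jt21 μ v₀ (((y : ℝ) - n / 2) / n)) - Q * EE μ n ≤ X μ 0 η (t, x) n y
  lu : ∀ (t x : ℤ) (n : ℕ), 0 ≤ t → t + n ≤ R → |x| ≤ 3 * R → 1 ≤ n → V μ 0 η (t, x) n ≤ Q * EE μ n
  tl : ∀ (t x : ℤ) (n : ℕ), 0 ≤ t → t + n ≤ R → |x| ≤ 3 * R → ∀ (m : ℕ) (y : ℤ), m ≤ R → y ≤ m → (m : ℤ) < 2 * y →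
    ∀ r : ℕ, n₁ ≤ r → g / 2 * EE μ r ≤ th21 μ g (min (((y : ℝ) - m / 2) / m) v₀) * wd μ r →
    th21 μ g (min (((y : ℝ) - m / 2) / m) v₀) * wd μ r ≤ c / 2 * EE μ r → Q * r ≤ n →
    |V μ (th21 μ g (min (((y : ℝ) - m / 2) / m) v₀)) η (t, x) n| ≤
      d * (n * LL μ (th21 μ g (min (((y : ℝ) - m / 2) / m) v₀)))

/-- The path `P` (positions at the times `0, .., N`) is typical: between any two of its points every point of it is not much worse than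
any other point. -/
def Typ21 (μ : Measure ℝ) (Q : ℝ) (N : ℕ) (η : Env) (P : ℕ → ℤ) : Prop :=
  ∀ i n m : ℕ, i + n + m ≤ N → ∀ k : ℤ, 0 ≤ k → k ≤ n →
    W μ 0 η ((i : ℤ), P i) n k * W μ 0 η ((i : ℤ) + n, P i + k) m (P (i + n + m) - P i - k) ≤
      Real.exp Q * (W μ 0 η ((i : ℤ), P i) n (P (i + n) - P i) *
        W μ 0 η ((i : ℤ) + n, P (i + n)) m (P (i + n + m) - P (i + n)))

/-- Almost all paths are typical (quenched, so it holds for all environments). -/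
def TypP21 (μ : Measure ℝ) : Prop := ∀ (N : ℕ) (y : ℤ) (Q : ℝ), 0 ≤ y → y ≤ N →
  Pool.Agent.W_7d29a1_Z.P1 μ N y (fun η S => ¬ Typ21 μ Q N η (pos S)) ≤ ENNReal.ofReal (((N : ℝ) + 1) ^ 4 * Real.exp (-Q))

/-- The regular environments have overwhelming probability. The order of the constants is the order in which they are chosen: `e`,
`b` first; then `g`, `d` (small); then `n₁`; then `v₀` (as small as one wants). -/
def EnvP21 (μ : Measure ℝ) (c : ℝ) : Prop := ∀ e : ℝ, 0 < e → ∃ b : ℝ, 0 < b ∧ ∀ g d : ℝ, 0 < g → 4 * g ≤ c → 0 < d →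
  ∃ n₁ : ℕ, ∀ v₁ : ℝ, 0 < v₁ → ∃ v₀ : ℝ, 0 < v₀ ∧ v₀ ≤ v₁ ∧ ∃ c' : ℝ, 0 < c' ∧ ∃ L₀ : ℕ, ∀ L : ℕ, L₀ ≤ L → ∀ R : ℕ, R ≤ L →
    (law μ).real {η | ¬ Env21 μ c b ((L : ℝ) ^ e) d g v₀ n₁ R η} ≤ Real.exp (-(L : ℝ) ^ c')

end

end Pool.Agent.W_7d29a1_Z21
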