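import Pool.Agent.W_7d29a1_Z21.Def
import Pool.Agent.W_7d29a1_SL.Refl
import Pool.Agent.W_7d29a1_g.TubeR17

/-!
STORM Z, Lemma NS: reflected and reversed environments and paths. (helper21)
-/

namespace Pool.Agent.W_7d29a1_Z21

open MeasureTheory ProbabilityTheory Filter Topology
open Pool.Agent.W_7d29a1_F Pool.Agent.W_7d29a1_G
open Pool.Agent.W_7d29a1_SL (rho mp_rho WR_rho)
open Pool.Agent.W_7d29a1_g (rv Zr_rev)

variable {μ : Measure ℝ}

theorem ph_neg21 (n : ℕ) (y : ℤ) : ph21 μ n (n - y) = ph21 μ n y := by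
  unfold ph21
  have e : |(((n : ℤ) - y : ℤ) : ℝ) - n / 2| = |(y : ℝ) - n / 2| := by
    rw [← abs_neg]
    congr 1
    push_cast
    ring
  rw [e]

theorem W_rho21 [IsProbabilityMeasure μ] (η : Env) (t x : ℤ) (n : ℕ) (y : ℤ) :
    W μ 0 (rho 0 η) (t, x) n y = W μ 0 η (t, t - x) n (n - y) := by
  have h := WR_rho (μ := μ) Set.univ η 0 t x n y
  rw [add_zero] at h
  exact h

theorem rv_sh21 (Z a : Pt) (η : Env) : sh a (rv Z η) = rv (Z - a) η := by
  funext p
  unfold sh rv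
  congr 1
  abel

theorem W_rv21 (η : Env) (Z a : Pt) (n : ℕ) (y : ℤ) :
    W μ 0 (rv Z η) a n y = Real.exp (η ((Z - a).1 - n, (Z - a).2 - y) - η (Z - a)) *
      W μ 0 η ((Z - a).1 - n, (Z - a).2 - y) n y := by
  have h1 : W μ 0 (rv Z η) a n y = W μ 0 (rv (Z - a) η) 0 n y := by
    have := W_sh (μ := μ) (s := 0) (rv Z η) 0 a n y
    rw [zero_add] at this
    rw [← this, rv_sh21]
  rw [h1]
  have h2 := Zr_rev η (Z - a) n y
  unfold W WR
  rw [← mul_assoc, mul_comm (Real.exp (η _ - η _)), mul_assoc]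
  congr 1
  show Zr Set.univ (rv (Z - a) η) 0 n y = _
  rw [Real.exp_sub, div_mul_eq_mul_div, h2, mul_div_assoc, mul_comm (Real.exp (η (Z - a))), div_mul_cancel₀ _ (Real.exp_pos _).ne']

theorem typ_rho21 [IsProbabilityMeasure μ] {Q : ℝ} {N : ℕ} {η : Env} {P : ℕ → ℤ} (h : Typ21 μ Q N η P) :
    Typ21 μ Q N (rho 0 η) fun i => i - P i := by
  intro i n m hN k hk0 hk1
  have h1 := h i n m hN (n - k) (by omega) (by omega)
  simp only [W_rho21]
  have e1 : (i : ℤ) - ((i : ℤ) - P i) = P i := by ring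
  have e2 : (i : ℤ) + n - ((i : ℤ) - P i + k) = P i + (n - k) := by ring
  have e3 : (m : ℤ) - (((i + n + m : ℕ) : ℤ) - P (i + n + m) - ((i : ℤ) - P i) - k) = P (i + n + m) - P i - (n - k) := by
    push_cast
    ring
  have e4 : (n : ℤ) - (((i + n : ℕ) : ℤ) - P (i + n) - ((i : ℤ) - P i)) = P (i + n) - P i := by
    push_cast
    ring
  have e5 : (i : ℤ) + n - (((i + n : ℕ) : ℤ) - P (i + n)) = P (i + n) := by
    push_cast
    ring
  have e6 : (m : ℤ) - (((i + n + m : ℕ) : ℤ) - P (i + n + m) - (((i + n : ℕ) : ℤ) - P (i + n))) = P (i + n + m) - P (i + n) := by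
    push_cast
    ring
  rw [e1, e2, e3, e4, e5, e6]
  exact h1

theorem typ_rv21 {Q : ℝ} {N : ℕ} {η : Env} {P : ℕ → ℤ} (h : Typ21 μ Q N η P) :
    Typ21 μ Q N (rv ((N : ℤ), 0) η) fun i => -P (N - i) := by
  intro i n m hN k hk0 hk1
  obtain ⟨j, hj⟩ : ∃ j : ℕ, N = j + m + n + i := ⟨N - (i + n + m), by omega⟩
  have a1 : N - i = j + m + n := by omega
  have a2 : N - (i + n) = j + m := by omega
  have a3 : N - (i + n + m) = j := by omega
  simp only [a1, a2, a3]
  have hNZ : (N : ℤ) = j + m + n + i := by exact_mod_cast hj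
  obtain ⟨k', hk'⟩ : ∃ k' : ℤ, k' = P (j + m + n) - k - P j := ⟨_, rfl⟩
  -- the four kernels
  have w1 : W μ 0 (rv ((N : ℤ), 0) η) ((i : ℤ), -P (j + m + n)) n k =
      Real.exp (η ((j : ℤ) + m, P j + k') - η ((j : ℤ) + m + n, P (j + m + n))) *
        W μ 0 η ((j : ℤ) + m, P j + k') n (P (j + m + n) - P j - k') := by
    rw [W_rv21]
    have e1 : (((N : ℤ), (0 : ℤ)) - ((i : ℤ), -P (j + m + n)) : Pt) = ((j : ℤ) + m + n, P (j + m + n)) := by
      ext
      · show (N : ℤ) - i = _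
        rw [hNZ]
        ring
      · show (0 : ℤ) - -P (j + m + n) = _
        ring
    rw [e1]
    have e2 : ((((j : ℤ) + m + n, P (j + m + n)) : Pt).1 - (n : ℤ), (((j : ℤ) + m + n, P (j + m + n)) : Pt).2 - k) =
        (((j : ℤ) + m, P j + k') : Pt) := by
      ext
      · show (j : ℤ) + m + n - n = _
        ring
      · show P (j + m + n) - k = _
        rw [hk']
        ring
    rw [e2]
    have e3 : P (j + m + n) - P j - k' = k := by rw [hk']; ring
    rw [e3]
  have w2 : W μ 0 (rv ((N : ℤ), 0) η) ((i : ℤ) + n, -P (j + m + n) + k) m (-P j - -P (j + m + n) - k) =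
      Real.exp (η ((j : ℤ), P j) - η ((j : ℤ) + m, P j + k')) * W μ 0 η ((j : ℤ), P j) m k' := by
    rw [W_rv21]
    have e1 : (((N : ℤ), (0 : ℤ)) - ((i : ℤ) + n, -P (j + m + n) + k) : Pt) = ((j : ℤ) + m, P j + k') := by
      ext
      · show (N : ℤ) - (i + n) = _
        rw [hNZ]
        ring
      · show (0 : ℤ) - (-P (j + m + n) + k) = _
        rw [hk']
        ring
    rw [e1]
    have e2 : ((((j : ℤ) + m, P j + k') : Pt).1 - (m : ℤ), (((j : ℤ) + m, P j + k') : Pt).2 - (-P j - -P (j + m + n) - k)) =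
        (((j : ℤ), P j) : Pt) := by
      ext
      · show (j : ℤ) + m - m = _
        ring
      · show P j + k' - (-P j - -P (j + m + n) - k) = _
        rw [hk']
        ring
    rw [e2]
    have e3 : -P j - -P (j + m + n) - k = k' := by rw [hk']; ring
    rw [e3]
  have w3 : W μ 0 (rv ((N : ℤ), 0) η) ((i : ℤ), -P (j + m + n)) n (-P (j + m) - -P (j + m + n)) =
      Real.exp (η ((j : ℤ) + m, P (j + m)) - η ((j : ℤ) + m + n, P (j + m + n))) *
        W μ 0 η ((j : ℤ) + m, P (j + m)) n (P (j + m + n) - P (j + m)) := by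
    rw [W_rv21]
    have e1 : (((N : ℤ), (0 : ℤ)) - ((i : ℤ), -P (j + m + n)) : Pt) = ((j : ℤ) + m + n, P (j + m + n)) := by
      ext
      · show (N : ℤ) - i = _
        rw [hNZ]
        ring
      · show (0 : ℤ) - -P (j + m + n) = _
        ring
    rw [e1]
    have e2 : ((((j : ℤ) + m + n, P (j + m + n)) : Pt).1 - (n : ℤ),
        (((j : ℤ) + m + n, P (j + m + n)) : Pt).2 - (-P (j + m) - -P (j + m + n))) = (((j : ℤ) + m, P (j + m)) : Pt) := by
      ext
      · show (j : ℤ) + m + n - n = _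
        ring
      · show P (j + m + n) - (-P (j + m) - -P (j + m + n)) = _
        ring
    rw [e2]
    have e3 : -P (j + m) - -P (j + m + n) = P (j + m + n) - P (j + m) := by ring
    rw [e3]
  have w4 : W μ 0 (rv ((N : ℤ), 0) η) ((i : ℤ) + n, -P (j + m)) m (-P j - -P (j + m)) =
      Real.exp (η ((j : ℤ), P j) - η ((j : ℤ) + m, P (j + m))) * W μ 0 η ((j : ℤ), P j) m (P (j + m) - P j) := by
    rw [W_rv21]
    have e1 : (((N : ℤ), (0 : ℤ)) - ((i : ℤ) + n, -P (j + m)) : Pt) = ((j : ℤ) + m, P (j + m)) := by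
      ext
      · show (N : ℤ) - (i + n) = _
        rw [hNZ]
        ring
      · show (0 : ℤ) - -P (j + m) = _
        ring
    rw [e1]
    have e2 : ((((j : ℤ) + m, P (j + m)) : Pt).1 - (m : ℤ), (((j : ℤ) + m, P (j + m)) : Pt).2 - (-P j - -P (j + m))) =
        (((j : ℤ), P j) : Pt) := by
      ext
      · show (j : ℤ) + m - m = _
        ring
      · show P (j + m) - (-P j - -P (j + m)) = _
        ring
    rw [e2]
    have e3 : -P j - -P (j + m) = P (j + m) - P j := by ring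
    rw [e3]
  rw [w1, w2, w3, w4]
  obtain ⟨F, hF⟩ : ∃ F : ℝ, F = Real.exp (η ((j : ℤ), P j) - η ((j : ℤ) + m + n, P (j + m + n))) := ⟨_, rfl⟩
  have hF0 : 0 ≤ F := hF ▸ (Real.exp_pos _).le
  have f1 : Real.exp (η ((j : ℤ) + m, P j + k') - η ((j : ℤ) + m + n, P (j + m + n))) *
      Real.exp (η ((j : ℤ), P j) - η ((j : ℤ) + m, P j + k')) = F := by
    rw [hF, ← Real.exp_add]
    congr 1
    ring
  have f2 : Real.exp (η ((j : ℤ) + m, P (j + m)) - η ((j : ℤ) + m + n, P (j + m + n))) *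
      Real.exp (η ((j : ℤ), P j) - η ((j : ℤ) + m, P (j + m))) = F := by
    rw [hF, ← Real.exp_add]
    congr 1
    ring
  have hmain : W μ 0 η ((j : ℤ), P j) m k' * W μ 0 η ((j : ℤ) + m, P j + k') n (P (j + m + n) - P j - k') ≤
      Real.exp Q * (W μ 0 η ((j : ℤ), P j) m (P (j + m) - P j) * W μ 0 η ((j : ℤ) + m, P (j + m)) n (P (j + m + n) - P (j + m))) := by
    by_cases hk : 0 ≤ k' ∧ k' ≤ m
    · exact h j m n (by omega) k' hk.1 hk.2
    · rw [W_eq_zero _ _ hk, zero_mul]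
      exact mul_nonneg (Real.exp_pos _).le (mul_nonneg (W_nonneg _ _ _ _) (W_nonneg _ _ _ _))
  calc _ = F * (W μ 0 η ((j : ℤ), P j) m k' * W μ 0 η ((j : ℤ) + m, P j + k') n (P (j + m + n) - P j - k')) := by
        rw [← f1]
        ring
    _ ≤ F * (Real.exp Q * (W μ 0 η ((j : ℤ), P j) m (P (j + m) - P j) *
          W μ 0 η ((j : ℤ) + m, P (j + m)) n (P (j + m + n) - P (j + m)))) := mul_le_mul_of_nonneg_left hmain hF0
    _ = _ := by
        rw [← f2]
        ring

end Pool.Agent.W_7d29a1_Z21
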