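import Pool.Agent.W_7d29a1_Z21.Step
import Pool.Agent.W_7d29a1_Z94.TiltG
import Pool.Agent.W_7d29a1_Z74.Box
import Pool.Agent.W_7d29a1_Z74.Num74

/-!
STORM Z, Lemma NS: the energy of the displacements to the right (field `en` of `Env21`). (helper21)
-/

namespace Pool.Agent.W_7d29a1_Z21

open MeasureTheory ProbabilityTheory Filter Topology Finset
open Pool.Agent.W_7d29a1_F Pool.Agent.W_7d29a1_h4g Pool.Agent.W_7d29a1_G Pool.Agent.W_7d29a1_L Pool.Agent.W_7d29a1_SR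

variable {μ : Measure ℝ} [IsProbabilityMeasure μ] {c C : ℝ} {n₀ : ℕ}

/-- The continuation, in terms of the capped slope. -/
theorem Jt_eq21 {v₀ u : ℝ} (hv₀ : 0 < v₀) (hu : 0 < u) : Jt21 μ v₀ u = J μ (min u v₀) * u / min u v₀ := by
  unfold Jt21
  rcases le_or_gt u v₀ with h1 | h1
  · rw [if_pos h1, min_eq_left h1, mul_div_cancel_right₀ _ hu.ne']
  · rw [if_neg (not_le.2 h1), min_eq_right h1.le]
    ring

/-- One displacement, from the luck and the luck at the tilt of a quarter of the slope. -/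
theorem en_det21 (h : In μ c C n₀) {K g b v₀ Q : ℝ} {n r : ℕ} {y : ℤ} {η : Env} (hn : 1 ≤ n) (hny : (n : ℤ) < 2 * y) (hyn : y ≤ n)
    (hg : 0 < g) (hg1 : g < 1) (hK : 1 ≤ K) (hb0 : 0 < b) (hb : b * K ≤ 2 * g) (hb1 : b ≤ 1) (hv₀ : 0 < v₀) (hv₀h : v₀ ≤ 1 / 2)
    (hup : ∀ v : ℝ, 0 < v → v ≤ 1 / 2 → J μ v ≤ K * J μ (v / 4)) (hQ : 1 ≤ Q) (hr : 1 ≤ r)
    (hrJ : r * J μ (min (((y : ℝ) - n / 2) / n) v₀ / 4) ≤ 2 * EE μ r)
    (hV : V μ 0 η 0 n ≤ K / v₀ * Q * EE μ n)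
    (hT : r * Q ≤ n → |V μ (th21 μ g (min (((y : ℝ) - n / 2) / n) v₀ / 4)) η 0 n| ≤
      1 * (n * LL μ (th21 μ g (min (((y : ℝ) - n / 2) / n) v₀ / 4)))) :
    b * (n * Jt21 μ v₀ (((y : ℝ) - n / 2) / n)) - 5 * (K / v₀) * Q * EE μ n ≤ X μ 0 η 0 n y := by
  have hn0 : (0 : ℝ) < n := by exact_mod_cast hn
  have hnyR : (n : ℝ) < 2 * y := by exact_mod_cast hny
  have hynR : (y : ℝ) ≤ n := by exact_mod_cast hyn
  have hy0 : 0 ≤ y := by omega
  obtain ⟨u, hu⟩ : ∃ u : ℝ, u = ((y : ℝ) - n / 2) / n := ⟨_, rfl⟩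
  rw [← hu] at hrJ hT ⊢
  have hu0 : 0 < u := by rw [hu]; exact div_pos (by linarith) hn0
  have huh : u ≤ 1 / 2 := by
    rw [hu, div_le_iff₀ hn0]
    linarith
  have hnu : n * u = (y : ℝ) - n / 2 := by rw [hu]; field_simp
  obtain ⟨w, hw⟩ : ∃ w : ℝ, w = min u v₀ := ⟨_, rfl⟩
  have hw0 : 0 < w := by rw [hw]; exact lt_min hu0 hv₀
  have hwu : w ≤ u := hw ▸ min_le_left _ _
  have hwv : w ≤ v₀ := hw ▸ min_le_right _ _
  have hJt := Jt_eq21 (μ := μ) hv₀ hu0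
  rw [← hw] at hrJ hT hJt
  rw [hJt]
  have hJw : 0 < J μ w := J_pos h.em h.nd hw0 (hwu.trans huh)
  have hJw4 : 0 < J μ (w / 4) := J_pos h.em h.nd (by positivity) (by linarith)
  have hup' := hup w hw0 (hwu.trans huh)
  have hEn := EE_pos (μ := μ) n
  have hKv : 0 < K / v₀ := by positivity
  rcases le_or_gt ((r : ℝ) * Q) n with h1 | h1
  · -- the tilted luck
    have h2 := hT h1
    obtain ⟨θ, hθ⟩ : ∃ θ : ℝ, θ = th21 μ g (w / 4) := ⟨_, rfl⟩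
    rw [← hθ] at h2
    have hθw : θ * (w / 4) = g * J μ (w / 4) := by
      rw [hθ]
      unfold th21
      rw [div_mul_cancel₀ _ (by positivity)]
    have hθ0 : 0 < θ := by
      rw [hθ]
      unfold th21
      positivity
    have hLL : LL μ θ ≤ θ * (w / 4) := by
      rw [hθw, hθ]
      exact LL_le21 h.em h.nd hg hg1 (by positivity) (by linarith)
    have h3 : V μ θ η 0 n ≤ n * LL μ θ := by
      have := (abs_le.1 h2).2
      linarith
    -- the cost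
    have h4 : Real.log (W μ 0 η 0 n y) = Real.log (W μ θ η 0 n y) - (θ * ((y : ℝ) - n / 2) - n * LL μ θ) := by
      rw [W_tilt21 θ η 0 n y, Real.log_mul (Real.exp_pos _).ne' (W_pos _ _ hy0 hyn).ne', Real.log_exp]
      ring
    have h5 : Real.log (W μ θ η 0 n y) ≤ V μ θ η 0 n := by
      have h6 : W μ θ η 0 n y ≤ Real.exp (V μ θ η 0 n) := by
        have := WS_le_exp_V (μ := μ) (s := θ) η 0 n {y}
        unfold WS at this
        rwa [Finset.sum_singleton] at this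
      rw [← Real.log_exp (V μ θ η 0 n)]
      exact Real.log_le_log (W_pos _ _ hy0 hyn) h6
    have h7 : θ * (n * u) - 2 * (n * LL μ θ) ≤ X μ 0 η 0 n y := by
      unfold X
      rw [h4, hnu]
      linarith
    have h8 : n * LL μ θ ≤ n * (θ * (w / 4)) := mul_le_mul_of_nonneg_left hLL hn0.le
    have h9 : n * (θ * (w / 4)) ≤ n * (θ * (u / 4)) :=
      mul_le_mul_of_nonneg_left (mul_le_mul_of_nonneg_left (by linarith) hθ0.le) hn0.le
    have h10 : n * θ * u / 2 ≤ X μ 0 η 0 n y := by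
      have e1 : θ * (n * u) = n * θ * u := by ring
      have e2 : n * (θ * (u / 4)) = n * θ * u / 4 := by ring
      rw [e1] at h7
      rw [e2] at h9
      linarith
    have h11 : b * (n * (J μ w * u / w)) ≤ n * θ * u / 2 := by
      have e3 : n * θ * u / 2 = n * (θ * (w / 4)) * (2 * u / w) := by
        field_simp
        ring
      rw [e3, hθw]
      have h12 : b * J μ w ≤ 2 * g * J μ (w / 4) := by
        calc b * J μ w ≤ b * (K * J μ (w / 4)) := mul_le_mul_of_nonneg_left hup' hb0.le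
          _ = b * K * J μ (w / 4) := by ring
          _ ≤ 2 * g * J μ (w / 4) := mul_le_mul_of_nonneg_right hb hJw4.le
      calc b * (n * (J μ w * u / w)) = n * (u / w) * (b * J μ w) := by ring
        _ ≤ n * (u / w) * (2 * g * J μ (w / 4)) := mul_le_mul_of_nonneg_left h12 (by positivity)
        _ = n * (g * J μ (w / 4)) * (2 * u / w) := by ring
    have h13 : 0 ≤ 5 * (K / v₀) * Q * EE μ n := by positivity
    linarith
  · -- the trivial case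
    have h2 : n * J μ (w / 4) ≤ 4 * Q * EE μ n := by
      rcases le_total r n with h3 | h3
      · have h4 : EE μ r ≤ EE μ n := EE_mono h3
        calc (n : ℝ) * J μ (w / 4) ≤ r * Q * J μ (w / 4) := mul_le_mul_of_nonneg_right h1.le hJw4.le
          _ = Q * (r * J μ (w / 4)) := by ring
          _ ≤ Q * (2 * EE μ n) := mul_le_mul_of_nonneg_left (hrJ.trans (by linarith)) (by linarith)
          _ ≤ 4 * Q * EE μ n := by
            have : 0 < Q * EE μ n := by positivity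
            linarith
      · have h4 := scale_b h hn h3
        have hr0 : (0 : ℝ) < r := by exact_mod_cast hr
        have h5 : (n : ℝ) * J μ (w / 4) * r ≤ 4 * EE μ n * r := by
          calc (n : ℝ) * J μ (w / 4) * r = n * (r * J μ (w / 4)) := by ring
            _ ≤ n * (2 * EE μ r) := mul_le_mul_of_nonneg_left hrJ hn0.le
            _ = 2 * (n * EE μ r) := by ring
            _ ≤ 2 * (2 * (r * EE μ n)) := by linarith
            _ = 4 * EE μ n * r := by ring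
        have h6 := le_of_mul_le_mul_right h5 hr0
        have h7 : 1 * EE μ n ≤ Q * EE μ n := mul_le_mul_of_nonneg_right hQ hEn.le
        linarith
    have h3 : n * (J μ w * u / w) ≤ K / v₀ * (n * J μ (w / 4)) := by
      have h4 : u / w ≤ 1 / v₀ := by
        rw [div_le_div_iff₀ hw0 hv₀, one_mul]
        rcases le_total u v₀ with h5 | h5
        · rw [hw, min_eq_left h5]
          nlinarith
        · rw [hw, min_eq_right h5]
          nlinarith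
      calc n * (J μ w * u / w) = n * (u / w) * J μ w := by ring
        _ ≤ n * (u / w) * (K * J μ (w / 4)) := mul_le_mul_of_nonneg_left hup' (by positivity)
        _ = (u / w) * (K * (n * J μ (w / 4))) := by ring
        _ ≤ (1 / v₀) * (K * (n * J μ (w / 4))) := mul_le_mul_of_nonneg_right h4 (by positivity)
        _ = K / v₀ * (n * J μ (w / 4)) := by ring
    have h4 : b * (n * (J μ w * u / w)) ≤ 1 * (n * (J μ w * u / w)) := mul_le_mul_of_nonneg_right hb1 (by positivity)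
    have h5 : K / v₀ * (n * J μ (w / 4)) ≤ K / v₀ * (4 * Q * EE μ n) := mul_le_mul_of_nonneg_left h2 hKv.le
    have h6 : -(V μ 0 η 0 n) ≤ X μ 0 η 0 n y := by
      have h7 : W μ 0 η 0 n y ≤ Real.exp (V μ 0 η 0 n) := Pool.Agent.W_7d29a1_Z74.W_le_exp_V η 0 n y
      have h8 : Real.log (W μ 0 η 0 n y) ≤ V μ 0 η 0 n := by
        rw [← Real.log_exp (V μ 0 η 0 n)]
        exact Real.log_le_log (W_pos _ _ hy0 hyn) h7
      unfold X
      linarith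
    have h7 : K / v₀ * (4 * Q * EE μ n) = 4 * (K / v₀) * Q * EE μ n := by ring
    linarith

/-- One displacement from the origin. -/
theorem en_one21 (h : In μ c C n₀) (hF : HF2 μ) {e : ℝ} (he : 0 < e) : ∃ b : ℝ, 0 < b ∧ ∃ v₁ : ℝ, 0 < v₁ ∧ ∀ v₀ : ℝ, 0 < v₀ →
    v₀ ≤ v₁ → ∃ A a s : ℝ, 0 < A ∧ 0 < a ∧ 0 < s ∧ ∃ L₀ : ℕ, ∀ L : ℕ, L₀ ≤ L → ∀ (n : ℕ) (y : ℤ), 1 ≤ n → n ≤ L → (n : ℤ) < 2 * y →
    y ≤ n → (law μ).real {η | ¬ b * (n * Jt21 μ v₀ (((y : ℝ) - n / 2) / n)) - (L : ℝ) ^ e * EE μ n ≤ X μ 0 η 0 n y} ≤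
      A * Real.exp (-(a * (L : ℝ) ^ s)) := by
  have hc0 := h.c0
  have hc1 := h.c1
  obtain ⟨K₁, hK₁, hup₁⟩ := J_up21 h hF
  obtain ⟨K, hK⟩ : ∃ K : ℝ, K = K₁ * 4 ^ K₁ := ⟨_, rfl⟩
  have hK1 : 1 ≤ K := by
    rw [hK]
    calc (1 : ℝ) = 1 * 1 := by norm_num
      _ ≤ K₁ * 4 ^ K₁ := mul_le_mul hK₁ (Real.one_le_rpow (by norm_num) (by linarith)) zero_le_one (by linarith)
  have hup : ∀ v : ℝ, 0 < v → v ≤ 1 / 2 → J μ v ≤ K * J μ (v / 4) := by
    intro v hv hvh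
    have h1 := hup₁ (v / 4) 4 (by positivity) (by norm_num) (by linarith)
    rw [show 4 * (v / 4) = v by ring] at h1
    rw [hK]
    exact h1
  obtain ⟨g, hg⟩ : ∃ g : ℝ, g = c / 4 := ⟨_, rfl⟩
  have hg0 : 0 < g := by rw [hg]; positivity
  have hg1 : g < 1 := by rw [hg]; linarith
  obtain ⟨b, hb⟩ : ∃ b : ℝ, b = min 1 (2 * g / K) := ⟨_, rfl⟩
  have hb0 : 0 < b := by rw [hb]; positivity
  have hb1 : b ≤ 1 := hb ▸ min_le_left _ _
  have hbK : b * K ≤ 2 * g := by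
    have : b ≤ 2 * g / K := hb ▸ min_le_right _ _
    rwa [le_div_iff₀ (by linarith)] at this
  obtain ⟨s₁, hs₁, n₂, L₁, hTL⟩ := Pool.Agent.W_7d29a1_Z94.tilt_lln h (e := e / 2) (d := 1) (c1 := g / 2) (by positivity) one_pos
    (by positivity)
  obtain ⟨v₁, hv₁, hv₁h, hsc⟩ := scale21 h n₂
  obtain ⟨A₂, a₂, hA₂, ha₂, hlu⟩ := upper_V_exp h
  refine ⟨b, hb0, v₁, hv₁, fun v₀ hv₀ hv₀1 => ?_⟩
  have hv₀h : v₀ ≤ 1 / 2 := hv₀1.trans hv₁h
  have hKv : 1 ≤ K / v₀ := by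
    rw [le_div_iff₀ hv₀]
    linarith
  have hs0 : 0 < min (e / 2) s₁ := lt_min (by positivity) hs₁
  obtain ⟨L₂, hL₂⟩ := eventually_atTop.1 (Pool.Agent.W_7d29a1_Z74.ev_pow_le (b := e) (c := e / 2) (by linarith)
    (K := 5 * (K / v₀)) (a := 1) one_pos)
  refine ⟨A₂ + 1, min a₂ 1, min (e / 2) s₁, by linarith, lt_min ha₂ one_pos, hs0, max (max L₁ L₂) 1, fun L hL n y hn hnL hny hyn => ?_⟩
  have hLL₁ : L₁ ≤ L := (le_max_left _ _).trans ((le_max_left _ _).trans hL)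
  have hLL₂ : L₂ ≤ L := (le_max_right _ _).trans ((le_max_left _ _).trans hL)
  have hL1 : (1 : ℝ) ≤ L := by exact_mod_cast (le_max_right _ _).trans hL
  have hn0 : (0 : ℝ) < n := by exact_mod_cast hn
  have hnyR : (n : ℝ) < 2 * y := by exact_mod_cast hny
  have hynR : (y : ℝ) ≤ n := by exact_mod_cast hyn
  have hEn := EE_pos (μ := μ) n
  obtain ⟨Q, hQ⟩ : ∃ Q : ℝ, Q = (L : ℝ) ^ (e / 2) := ⟨_, rfl⟩
  have hQ1 : 1 ≤ Q := hQ ▸ Real.one_le_rpow hL1 (by positivity)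
  have hQe : 5 * (K / v₀) * Q ≤ (L : ℝ) ^ e := by
    have := hL₂ L hLL₂
    rw [hQ]
    linarith
  obtain ⟨u, hu⟩ : ∃ u : ℝ, u = ((y : ℝ) - n / 2) / n := ⟨_, rfl⟩
  have hu0 : 0 < u := by rw [hu]; exact div_pos (by linarith) hn0
  obtain ⟨w, hw⟩ : ∃ w : ℝ, w = min u v₀ := ⟨_, rfl⟩
  have hw0 : 0 < w := by rw [hw]; exact lt_min hu0 hv₀
  have hwv : w ≤ v₀ := hw ▸ min_le_right _ _
  obtain ⟨r, hr2, hr1, hrv, hrv2, hrE, hrJ⟩ := hsc (w / 4) (by positivity) (by linarith)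
  have hadm := adm21 hg0 (show 0 < w / 4 by positivity) hr1 hrv hrv2 hrE hrJ
  obtain ⟨θ, hθ⟩ : ∃ θ : ℝ, θ = th21 μ g (w / 4) := ⟨_, rfl⟩
  rw [← hθ] at hadm
  have hθ0 : 0 ≤ θ := by
    have hJ : 0 < J μ (w / 4) := J_pos h.em h.nd (by positivity) (by linarith)
    rw [hθ]
    unfold th21
    positivity
  -- the two bad events
  have hcov : {η | ¬ b * (n * Jt21 μ v₀ (((y : ℝ) - n / 2) / n)) - (L : ℝ) ^ e * EE μ n ≤ X μ 0 η 0 n y} ⊆
      {η | Q * EE μ n ≤ V μ 0 η 0 n} ∪ {η | (r : ℝ) * Q ≤ n ∧ ¬ |V μ θ η 0 n| ≤ 1 * (n * LL μ θ)} := by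
    intro η hη
    by_contra hcon
    apply hη
    rw [Set.mem_union, not_or, Set.mem_ofPred_eq, Set.mem_ofPred_eq, not_and, not_not, not_le] at hcon
    have h1 := en_det21 h (K := K) (g := g) (b := b) (v₀ := v₀) (Q := Q) (n := n) (r := r) (y := y) (η := η) hn hny hyn hg0 hg1 hK1
      hb0 hbK hb1 hv₀ hv₀h hup hQ1 hr1 (by rw [← hu, ← hw]; exact hrJ) (by
        refine hcon.1.le.trans (mul_le_mul_of_nonneg_right ?_ hEn.le)
        exact le_mul_of_one_le_left (by linarith) hKv) (by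
        rw [← hu, ← hw, ← hθ]
        exact hcon.2)
    have h2 := mul_le_mul_of_nonneg_right hQe hEn.le
    linarith
  have hp1 : (law μ).real {η | Q * EE μ n ≤ V μ 0 η 0 n} ≤ A₂ * Real.exp (-(min a₂ 1 * (L : ℝ) ^ min (e / 2) s₁)) := by
    refine (hlu n hn Q (by linarith)).trans (mul_le_mul_of_nonneg_left (Real.exp_le_exp.2 ?_) hA₂.le)
    have h1 : (L : ℝ) ^ min (e / 2) s₁ ≤ Q := by
      rw [hQ]
      exact Real.rpow_le_rpow_of_exponent_le hL1 (min_le_left _ _)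
    have h2 : min a₂ 1 * (L : ℝ) ^ min (e / 2) s₁ ≤ a₂ * Q :=
      mul_le_mul (min_le_left _ _) h1 (by positivity) ha₂.le
    linarith
  have hp2 : (law μ).real {η | (r : ℝ) * Q ≤ n ∧ ¬ |V μ θ η 0 n| ≤ 1 * (n * LL μ θ)} ≤
      1 * Real.exp (-(min a₂ 1 * (L : ℝ) ^ min (e / 2) s₁)) := by
    refine le_trans ?_ (le_of_eq (one_mul _).symm)
    by_cases hrn : (r : ℝ) * Q ≤ n
    · have h1 := hTL L hLL₁ r hr2 θ (by rw [abs_of_nonneg hθ0]; exact hadm.1) (by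
        rw [abs_of_nonneg hθ0]
        refine hadm.2.trans (le_of_eq ?_)
        rw [hg]
        ring) n (by rw [← hQ]; exact hrn) hnL
      refine (measureReal_mono fun η hη => hη.2).trans (h1.trans (Real.exp_le_exp.2 ?_))
      have h2 : (L : ℝ) ^ min (e / 2) s₁ ≤ (L : ℝ) ^ s₁ := Real.rpow_le_rpow_of_exponent_le hL1 (min_le_right _ _)
      have h3 : min a₂ 1 * (L : ℝ) ^ min (e / 2) s₁ ≤ 1 * (L : ℝ) ^ s₁ :=
        mul_le_mul (min_le_right _ _) h2 (by positivity) zero_le_one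
      linarith
    · have e1 : {η : Env | (r : ℝ) * Q ≤ n ∧ ¬ |V μ θ η 0 n| ≤ 1 * (n * LL μ θ)} = ∅ := by
        ext η
        simp only [Set.mem_ofPred_eq, Set.mem_empty_iff_false, iff_false, not_and]
        exact fun h1 => absurd h1 hrn
      rw [e1, measureReal_empty]
      exact (Real.exp_pos _).le
  refine (measureReal_mono hcov).trans ((measureReal_union_le _ _).trans ?_)
  rw [add_mul]
  exact add_le_add hp1 hp2

theorem X_start21 (a : Pt) (n : ℕ) (y : ℤ) (r : ℝ) :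
    (law μ).real {η | ¬ r ≤ X μ 0 η a n y} = (law μ).real {η | ¬ r ≤ X μ 0 η 0 n y} := by
  have hm : MeasurableSet {η : Env | ¬ r ≤ X μ 0 η 0 n y} := (measurableSet_le measurable_const (measurable_X 0 n y)).compl
  have h := real_sh (μ := μ) a hm
  have e1 : {η | sh a η ∈ {η : Env | ¬ r ≤ X μ 0 η 0 n y}} = {η | ¬ r ≤ X μ 0 η a n y} := by
    ext η
    simp only [Set.mem_ofPred_eq, X_sh, zero_add]
  rw [← h, e1]

/-- **The energy of all the displacements to the right** (field `en` of `Env21`). -/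
theorem en21P (h : In μ c C n₀) (hF : HF2 μ) : ∀ e : ℝ, 0 < e → ∃ b : ℝ, 0 < b ∧ ∃ v₁ : ℝ, 0 < v₁ ∧ ∀ v₀ : ℝ, 0 < v₀ → v₀ ≤ v₁ →
    ∃ c' : ℝ, 0 < c' ∧ ∃ L₀ : ℕ, ∀ L : ℕ, L₀ ≤ L → ∀ R : ℕ, R ≤ L →
    (law μ).real {η | ¬ ∀ (t x : ℤ) (n : ℕ) (y : ℤ), 0 ≤ t → t + n ≤ R → |x| ≤ 3 * R → 1 ≤ n → (n : ℤ) < 2 * y → y ≤ n →
      b * (n * Jt21 μ v₀ (((y : ℝ) - n / 2) / n)) - (L : ℝ) ^ e * EE μ n ≤ X μ 0 η (t, x) n y} ≤ Real.exp (-(L : ℝ) ^ c') := by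
  intro e he
  obtain ⟨b, hb, v₁, hv₁, hone⟩ := en_one21 h hF he
  refine ⟨b, hb, v₁, hv₁, fun v₀ hv₀ hv₀1 => ?_⟩
  obtain ⟨A, a, s, hA, ha, hs, L₁, hL₁⟩ := hone v₀ hv₀ hv₀1
  obtain ⟨L₂, hL₂⟩ := eventually_atTop.1 (Pool.Agent.W_7d29a1_Z74.ev_exp (A := 112 * A) (a := a) (b := s) (c := s / 2) (by positivity)
    ha hs (by linarith) 4)
  refine ⟨s / 2, by positivity, max (max L₁ L₂) 1, fun L hL R hR => ?_⟩
  have hLL₁ : L₁ ≤ L := (le_max_left _ _).trans ((le_max_left _ _).trans hL)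
  have hLL₂ : L₂ ≤ L := (le_max_right _ _).trans ((le_max_left _ _).trans hL)
  have hL1 : (1 : ℝ) ≤ L := by exact_mod_cast (le_max_right _ _).trans hL
  obtain ⟨I, hI⟩ : ∃ I : Finset ((ℤ × ℤ) × (ℤ × ℤ)), I = (Icc (0 : ℤ) R ×ˢ Icc (-(3 * R : ℤ)) (3 * R)) ×ˢ (Icc (1 : ℤ) R ×ˢ Icc (0 : ℤ) R) :=
    ⟨_, rfl⟩
  obtain ⟨B, hB⟩ : ∃ B : (ℤ × ℤ) × (ℤ × ℤ) → Set Env, B = fun q : (ℤ × ℤ) × (ℤ × ℤ) => {η : Env | 1 ≤ q.2.1 ∧ q.2.1 ≤ (R : ℤ) ∧ q.2.1 < 2 * q.2.2 ∧ q.2.2 ≤ q.2.1 ∧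
      ¬ b * ((q.2.1.toNat : ℝ) * Jt21 μ v₀ (((q.2.2 : ℝ) - (q.2.1.toNat : ℝ) / 2) / (q.2.1.toNat : ℝ))) -
        (L : ℝ) ^ e * EE μ q.2.1.toNat ≤ X μ 0 η (q.1.1, q.1.2) q.2.1.toNat q.2.2} := ⟨_, rfl⟩
  have hcov : {η | ¬ ∀ (t x : ℤ) (n : ℕ) (y : ℤ), 0 ≤ t → t + n ≤ R → |x| ≤ 3 * R → 1 ≤ n → (n : ℤ) < 2 * y → y ≤ n →
      b * (n * Jt21 μ v₀ (((y : ℝ) - n / 2) / n)) - (L : ℝ) ^ e * EE μ n ≤ X μ 0 η (t, x) n y} ⊆ ⋃ q ∈ I, B q := by
    intro η hη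
    rw [Set.mem_ofPred_eq] at hη
    push Not at hη
    obtain ⟨t, x, n, y, h1, h2, h3, h4, h5, h6, h7⟩ := hη
    rw [Set.mem_iUnion₂]
    refine ⟨((t, x), ((n : ℤ), y)), ?_, ?_⟩
    · rw [abs_le] at h3
      rw [hI]
      simp only [mem_product, mem_Icc]
      omega
    · rw [hB]
      simp only [Set.mem_ofPred_eq, Int.toNat_natCast, not_le]
      exact ⟨by omega, by omega, h5, h6, h7⟩
  have hBq : ∀ q ∈ I, (law μ).real (B q) ≤ A * Real.exp (-(a * (L : ℝ) ^ s)) := by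
    intro q _
    rw [hB]
    by_cases hq : 1 ≤ q.2.1 ∧ q.2.1 ≤ R ∧ q.2.1 < 2 * q.2.2 ∧ q.2.2 ≤ q.2.1
    · obtain ⟨h1, h2, h3, h4⟩ := hq
      have h5 := hL₁ L hLL₁ q.2.1.toNat q.2.2 (by omega) (by omega) (by omega) (by omega)
      rw [← X_start21 (μ := μ) (q.1.1, q.1.2)] at h5
      exact (measureReal_mono fun η hη => hη.2.2.2.2).trans h5
    · have e1 : {η : Env | 1 ≤ q.2.1 ∧ q.2.1 ≤ R ∧ q.2.1 < 2 * q.2.2 ∧ q.2.2 ≤ q.2.1 ∧
          ¬ b * ((q.2.1.toNat : ℝ) * Jt21 μ v₀ (((q.2.2 : ℝ) - (q.2.1.toNat : ℝ) / 2) / (q.2.1.toNat : ℝ))) -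
            (L : ℝ) ^ e * EE μ q.2.1.toNat ≤ X μ 0 η (q.1.1, q.1.2) q.2.1.toNat q.2.2} = ∅ := by
        ext η
        simp only [Set.mem_ofPred_eq, Set.mem_empty_iff_false, iff_false]
        exact fun h1 => hq ⟨h1.1, h1.2.1, h1.2.2.1, h1.2.2.2.1⟩
      show (law μ).real {η : Env | _} ≤ _
      rw [e1, measureReal_empty]
      positivity
  have hcard : (I.card : ℝ) ≤ 112 * (L : ℝ) ^ (4 : ℝ) := by
    have h1 : I.card ≤ (R + 1) * (6 * R + 1) * ((R + 1) * (R + 1)) := by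
      rw [hI, card_product, card_product, card_product, Int.card_Icc, Int.card_Icc, Int.card_Icc]
      refine Nat.mul_le_mul (Nat.mul_le_mul ?_ ?_) (Nat.mul_le_mul ?_ ?_) <;> omega
    have hRL : (R : ℝ) ≤ L := by exact_mod_cast hR
    have h2 : (I.card : ℝ) ≤ ((R : ℝ) + 1) * (6 * R + 1) * (((R : ℝ) + 1) * ((R : ℝ) + 1)) := by exact_mod_cast h1
    have h9 : ((L : ℝ) ^ (4 : ℝ)) = (L : ℝ) ^ (4 : ℕ) := by
      rw [← Real.rpow_natCast]
      norm_num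
    rw [h9]
    refine h2.trans ?_
    have h3 : (R : ℝ) + 1 ≤ 2 * L := by linarith
    have h4 : 6 * (R : ℝ) + 1 ≤ 7 * L := by linarith
    have hR0 : (0 : ℝ) ≤ R := Nat.cast_nonneg _
    calc ((R : ℝ) + 1) * (6 * R + 1) * (((R : ℝ) + 1) * ((R : ℝ) + 1)) ≤ (2 * L) * (7 * L) * ((2 * L) * (2 * L)) := by
          refine mul_le_mul (mul_le_mul h3 h4 (by positivity) (by positivity)) (mul_le_mul h3 h3 (by positivity) (by positivity))
            (by positivity) (by positivity)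
      _ = 56 * (L : ℝ) ^ 4 := by ring
      _ ≤ 112 * (L : ℝ) ^ 4 := by
          have : (0 : ℝ) ≤ (L : ℝ) ^ 4 := by positivity
          linarith
  have h5 := hL₂ L hLL₂
  have hx := (Real.exp_pos (-(L : ℝ) ^ (s / 2))).le
  calc _ ≤ (law μ).real (⋃ q ∈ I, B q) := measureReal_mono hcov (measure_ne_top _ _)
    _ ≤ ∑ q ∈ I, (law μ).real (B q) := measureReal_biUnion_finset_le _ _
    _ ≤ ∑ _q ∈ I, A * Real.exp (-(a * (L : ℝ) ^ s)) := sum_le_sum hBq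
    _ = I.card * (A * Real.exp (-(a * (L : ℝ) ^ s))) := by rw [sum_const, nsmul_eq_mul]
    _ ≤ 112 * (L : ℝ) ^ (4 : ℝ) * (A * Real.exp (-(a * (L : ℝ) ^ s))) := mul_le_mul_of_nonneg_right hcard (by positivity)
    _ = 112 * A * (L : ℝ) ^ (4 : ℝ) * Real.exp (-(a * (L : ℝ) ^ s)) := by ring
    _ ≤ _ := by linarith

end Pool.Agent.W_7d29a1_Z21
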