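import Pool.Agent.W_7d29a1_Z21.Ns
import Pool.Agent.W_7d29a1_Z21.En21
import Pool.Agent.W_7d29a1_Z21.Env94
import Pool.Agent.W_7d29a1_Z21.Typ62

/-!
STORM Z, Lemma NS, closed: `ns21` with its two inputs `EnvP21` (`env_of94` of helper94 and `en21P`) and `TypP21` (`typP21` of helper62).
-/

namespace Pool.Agent.W_7d29a1_Z21

open MeasureTheory ProbabilityTheory Filter Topology Finset
open Pool.Agent.W_7d29a1_F Pool.Agent.W_7d29a1_X Pool.Agent.W_7d29a1_G Pool.Agent.W_7d29a1_Z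
open Pool.Agent.W_7d29a1_SR (In wd)
open scoped ENNReal

variable {μ : Measure ℝ} [IsProbabilityMeasure μ] {c C : ℝ} {n₀ : ℕ}

theorem ns_final21 (h : In μ c C n₀) (hF : HF2 μ) :
    ∀ ε : ℝ, 0 < ε → ∃ δ c' : ℝ, 0 < δ ∧ 0 < c' ∧ ∃ L₀ : ℕ, ∀ L : ℕ, L₀ ≤ L → ∀ N : ℕ, L ≤ 16 * N → N ≤ L →
    ∀ y : ℤ, 0 ≤ y → y ≤ N → |2 * (y : ℝ) - N| ≤ 2 * ((L : ℝ) ^ δ * wd' μ N) →
    P1 μ N y (fun _ S => ¬ ∀ i n : ℕ, 1 ≤ n → i + n ≤ N →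
      |2 * ((pos S (i + n) - pos S i : ℤ) : ℝ) - n| ≤ 2 * ((L : ℝ) ^ ε * wd' μ n)) ≤
      ENNReal.ofReal (Real.exp (-(L : ℝ) ^ c')) :=
  ns21 h hF (env_of94 h (en21P h hF)) typP21

end Pool.Agent.W_7d29a1_Z21
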