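import Pool.Agent.W_7d29a1_Z21.Top

/-!
STORM Z, Lemma NS: the deterministic theorem: a typical path in a regular environment has no steep places. (helper21)
-/

namespace Pool.Agent.W_7d29a1_Z21

open MeasureTheory ProbabilityTheory Filter Topology
open Pool.Agent.W_7d29a1_F Pool.Agent.W_7d29a1_h4g Pool.Agent.W_7d29a1_G Pool.Agent.W_7d29a1_L Pool.Agent.W_7d29a1_SR
open Pool.Agent.W_7d29a1_SL (rho mp_rho)
open Pool.Agent.W_7d29a1_g (rv)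
open Pool.Agent.W_7d29a1_Z (wd')

variable {μ : Measure ℝ} [IsProbabilityMeasure μ] {c C : ℝ} {n₀ : ℕ}

/-- The units are small against the time. -/
theorem small21 (h : In μ c C n₀) {c₂ : ℝ} (hc₂ : 0 < c₂) {Λ₃ : ℝ} (hΛ₃ : 0 < Λ₃) : ∃ K : ℝ, 1 ≤ K ∧ ∀ Q : ℝ, 1 ≤ Q →
    ∃ n₃ : ℕ, (n₃ : ℝ) ≤ K * Q ^ 2 ∧ ∀ n : ℕ, n₃ ≤ n → 1 ≤ n → Λ₃ * Q * EE μ n < c₂ * n := by
  obtain ⟨A, hA, n₂, hn₂, hsub⟩ := sub_half h
  have hn₂0 : (0 : ℝ) < n₂ := by exact_mod_cast hn₂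
  have hE2 := EE_pos (μ := μ) n₂
  obtain ⟨B, hB⟩ : ∃ B : ℝ, B = Λ₃ ^ 2 * (A * EE μ n₂ ^ 2 / n₂) / c₂ ^ 2 := ⟨_, rfl⟩
  have hB0 : 0 < B := by rw [hB]; positivity
  refine ⟨B + n₂ + 2, by linarith, fun Q hQ => ⟨⌈B * Q ^ 2⌉₊ + 1 + n₂, ?_, fun n hn hn1 => ?_⟩⟩
  · have h1 : (⌈B * Q ^ 2⌉₊ : ℝ) ≤ B * Q ^ 2 + 1 := (Nat.ceil_lt_add_one (by positivity)).le
    have h2 : (1 : ℝ) ≤ Q ^ 2 := one_le_pow₀ hQ
    push_cast
    nlinarith
  · have hn2 : n₂ ≤ n := by omega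
    have h1 := hsub n₂ n le_rfl hn2
    have hn0 : (0 : ℝ) < n := by exact_mod_cast hn1
    have h3 : B * Q ^ 2 < n := by
      have h4 : B * Q ^ 2 ≤ ⌈B * Q ^ 2⌉₊ := Nat.le_ceil _
      have h5 : ((⌈B * Q ^ 2⌉₊ + 1 : ℕ) : ℝ) ≤ n := by exact_mod_cast (by omega : ⌈B * Q ^ 2⌉₊ + 1 ≤ n)
      push_cast at h5
      linarith
    have hEn := EE_pos (μ := μ) n
    have h6 : (Λ₃ * Q * EE μ n) ^ 2 < (c₂ * n) ^ 2 := by
      calc (Λ₃ * Q * EE μ n) ^ 2 = Λ₃ ^ 2 * Q ^ 2 * EE μ n ^ 2 := by ring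
        _ ≤ Λ₃ ^ 2 * Q ^ 2 * (A * (n / n₂) * EE μ n₂ ^ 2) := mul_le_mul_of_nonneg_left h1 (by positivity)
        _ = c₂ ^ 2 * n * (B * Q ^ 2) := by
          rw [hB]
          field_simp
        _ < c₂ ^ 2 * n * n := mul_lt_mul_of_pos_left h3 (by positivity)
        _ = _ := by ring
    exact lt_of_pow_lt_pow_left₀ 2 (by positivity) h6

/-- From the energy to the width. -/
theorem width21 (h : In μ c C n₀) : ∃ n₄ : ℕ, ∀ (B : ℝ), 1 ≤ B → ∀ n : ℕ, 1 ≤ n → ∀ x : ℝ, 0 ≤ x → x ≤ n / 2 →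
    n * J μ (x / n) ≤ B * EE μ n → x ≤ (B + n₄) * wd' μ n := by
  obtain ⟨n₂, hn₂⟩ := eventually_atTop.1 (vA_lt_half (μ := μ) h.em h.nd (A := 1) zero_le_one)
  refine ⟨n₂, fun B hB n hn x hx hxn hJ => ?_⟩
  have hw1 : 1 ≤ wd' μ n := le_max_left _ _
  have hw2 : wd μ n ≤ wd' μ n := le_max_right _ _
  have hn0 : (0 : ℝ) < n := by exact_mod_cast hn
  have hn20 : (0 : ℝ) ≤ n₂ := Nat.cast_nonneg _
  rcases lt_or_ge n n₂ with h1 | h1
  · have h2 : (n : ℝ) ≤ n₂ := by exact_mod_cast h1.le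
    nlinarith
  · have hvA := hn₂ n h1
    have hv0 := vA_pos (μ := μ) h.em (A := 1) one_pos n
    have e1 := vA_eq' h.em zero_le_one hvA
    rw [one_mul] at e1
    have hE := EE_pos (μ := μ) n
    have h2 : x / n ≤ B * vA μ 1 n := by
      by_contra hcon
      push Not at hcon
      obtain ⟨t, ht⟩ : ∃ t : ℝ, t = x / n / vA μ 1 n := ⟨_, rfl⟩
      have htv : t * vA μ 1 n = x / n := by rw [ht, div_mul_cancel₀ _ hv0.ne']
      have htB : B < t := by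
        rw [ht, lt_div_iff₀ hv0]
        exact hcon
      have h3 := J_mul h.em (v := vA μ 1 n) (t := t) hv0.le (by linarith) (by
        rw [htv, div_le_iff₀ hn0]
        linarith)
      rw [htv] at h3
      have h4 : t * EE μ n ≤ B * EE μ n := by
        calc t * EE μ n = n * (t * J μ (vA μ 1 n)) := by rw [← e1]; ring
          _ ≤ n * J μ (x / n) := mul_le_mul_of_nonneg_left h3 hn0.le
          _ ≤ _ := hJ
      have h5 := le_of_mul_le_mul_right h4 hE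
      linarith
    rw [div_le_iff₀ hn0] at h2
    have h3 : B * vA μ 1 n * n = B * wd μ n := by unfold wd; ring
    rw [h3] at h2
    have h4 : B * wd μ n ≤ B * wd' μ n := mul_le_mul_of_nonneg_left hw2 (by linarith)
    have h5 : 0 ≤ (n₂ : ℝ) * wd' μ n := mul_nonneg hn20 (by linarith)
    nlinarith

/-- **The deterministic theorem.** -/
theorem det21 (h : In μ c C n₀) (hF : HF2 μ) {b : ℝ} (hb0 : 0 < b) : ∃ (g d : ℝ), 0 < g ∧ 4 * g ≤ c ∧ 0 < d ∧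
    ∀ n₁ : ℕ, ∃ v₁ : ℝ, 0 < v₁ ∧ ∀ v₀ : ℝ, 0 < v₀ → v₀ ≤ v₁ → ∃ K : ℝ, 1 ≤ K ∧ ∀ Q : ℝ, 1 ≤ Q → ∀ (N : ℕ) (η : Env) (P : ℕ → ℤ),
    Env4 μ c b Q d g v₀ n₁ N η → Typ21 μ Q N η P → Pa21 N P → (∀ i, i ≤ N → 0 ≤ P i ∧ P i ≤ i) →
    X μ 0 η ((0 : ℤ), (0 : ℤ)) N (P N) ≤ Q * EE μ N →
    ∀ i n : ℕ, 1 ≤ n → i + n ≤ N → |2 * ((P (i + n) - P i : ℤ) : ℝ) - n| ≤ 2 * (K * Q ^ 2 * wd' μ n) := by
  obtain ⟨g, d, T, hg, hgc, hd, hT, hstep⟩ := step21 h hF hb0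
  refine ⟨g, d, hg, hgc, hd, fun n₁ => ?_⟩
  obtain ⟨v₁, hv₁, hv₁h, hst⟩ := hstep n₁
  refine ⟨v₁, hv₁, fun v₀ hv₀ hv₀1 => ?_⟩
  obtain ⟨c₂, Λ, hc₂, hΛ, hS⟩ := hst v₀ hv₀ hv₀1
  obtain ⟨Λt, hΛt, htop⟩ := top21 h hF hb0 hv₀ (hv₀1.trans hv₁h) T (by omega)
  obtain ⟨Λ₃, hΛ₃⟩ : ∃ Λ₃ : ℝ, Λ₃ = Λ + Λt := ⟨_, rfl⟩
  have hΛ₃0 : 0 < Λ₃ := by linarith
  obtain ⟨K₃, hK₃, hsm⟩ := small21 h hc₂ hΛ₃0
  obtain ⟨n₄, hw⟩ := width21 (μ := μ) h
  have hJh : 0 < J μ (1 / 2) := J_pos h.em h.nd (by norm_num) le_rfl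
  obtain ⟨B, hB⟩ : ∃ B : ℝ, B = Λ₃ + K₃ * J μ (1 / 2) + 1 := ⟨_, rfl⟩
  have hB1 : 1 ≤ B := by
    have : 0 ≤ K₃ * J μ (1 / 2) := by positivity
    linarith
  have hn40 : (0 : ℝ) ≤ n₄ := Nat.cast_nonneg _
  refine ⟨B + n₄, by linarith, fun Q hQ N η P hE hty hP h0 hX i n hn hin => ?_⟩
  obtain ⟨n₃, hn₃, hn₃'⟩ := hsm Q hQ
  have hQ2 : 1 ≤ Q ^ 2 := one_le_pow₀ hQ
  have hEn := one_le_EE (μ := μ) n
  have hph : ph21 μ n (P (i + n) - P i) ≤ B * Q ^ 2 * EE μ n := by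
    rcases le_or_gt n₃ n with h1 | h1
    · have h2 := iter21 h (Λ' := Λ₃ * Q) hS hT hQ hE hty hP h0 (by positivity)
        (mul_le_mul_of_nonneg_right (by linarith) (by linarith)) (fun i' n' hn' hin' hN' => by
          have h3 := htop d g n₁ Q hQ N η P hE.e1 hE.e2 hty hP h0 hX i' n' hn' hin' hN'
          have h4 : Λt * Q * EE μ n' < Λ₃ * Q * EE μ n' := by
            have := EE_pos (μ := μ) n'
            exact mul_lt_mul_of_pos_right (mul_lt_mul_of_pos_right (by linarith) (by linarith)) this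
          linarith) (n₃ := n₃) hn₃' i n h1 hn hin
      have h3 : Λ₃ * Q ≤ B * Q ^ 2 := by
        have h4 : Λ₃ * Q ≤ B * Q := mul_le_mul_of_nonneg_right (by
          have : 0 ≤ K₃ * J μ (1 / 2) := by positivity
          linarith) (by linarith)
        have h5 : B * Q ≤ B * Q ^ 2 := mul_le_mul_of_nonneg_left (by nlinarith) (by linarith)
        linarith
      exact h2.le.trans (mul_le_mul_of_nonneg_right h3 (by linarith))
    · have h2 : (n : ℝ) ≤ K₃ * Q ^ 2 := by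
        have : (n : ℝ) ≤ n₃ := by exact_mod_cast h1.le
        linarith
      have hle := hP.le i n hin
      have hn0 : (0 : ℝ) < n := by exact_mod_cast hn
      have h3 : |((P (i + n) - P i : ℤ) : ℝ) - n / 2| / n ≤ 1 / 2 := by
        rw [div_le_iff₀ hn0, abs_le]
        have h1 : (0 : ℝ) ≤ ((P (i + n) - P i : ℤ) : ℝ) := by
          exact_mod_cast (by omega : 0 ≤ P (i + n) - P i)
        have h2 : ((P (i + n) - P i : ℤ) : ℝ) ≤ n := by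
          exact_mod_cast (by omega : P (i + n) - P i ≤ n)
        constructor <;> linarith
      unfold ph21
      have h4 : J μ (|((P (i + n) - P i : ℤ) : ℝ) - n / 2| / n) ≤ J μ (1 / 2) := J_mono' h.em (by positivity) h3 le_rfl
      calc (n : ℝ) * J μ (|((P (i + n) - P i : ℤ) : ℝ) - n / 2| / n) ≤ (K₃ * Q ^ 2) * J μ (1 / 2) :=
            mul_le_mul h2 h4 (J_nonneg h.em (by
              rw [abs_of_nonneg (by positivity)]
              exact h3)) (by positivity)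
        _ = (K₃ * J μ (1 / 2)) * Q ^ 2 * 1 := by ring
        _ ≤ B * Q ^ 2 * EE μ n := by
          refine mul_le_mul (mul_le_mul_of_nonneg_right (by linarith) (by positivity)) hEn zero_le_one (by positivity)
  have hle := hP.le i n hin
  have hx : |((P (i + n) - P i : ℤ) : ℝ) - n / 2| ≤ n / 2 := by
    rw [abs_le]
    have h1 : (0 : ℝ) ≤ ((P (i + n) - P i : ℤ) : ℝ) := by
      exact_mod_cast (by omega : 0 ≤ P (i + n) - P i)
    have h2 : ((P (i + n) - P i : ℤ) : ℝ) ≤ n := by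
      exact_mod_cast (by omega : P (i + n) - P i ≤ n)
    constructor <;> linarith
  have h5 := hw (B * Q ^ 2) (by nlinarith) n hn _ (abs_nonneg _) hx hph
  have h6 : |2 * ((P (i + n) - P i : ℤ) : ℝ) - n| = 2 * |((P (i + n) - P i : ℤ) : ℝ) - n / 2| := by
    rw [← abs_of_pos (show (0 : ℝ) < 2 by norm_num), ← abs_mul, abs_of_pos (show (0 : ℝ) < 2 by norm_num)]
    congr 1
    ring
  rw [h6]
  have hw1 : 1 ≤ wd' μ n := le_max_left _ _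
  have h7 : (B * Q ^ 2 + n₄) * wd' μ n ≤ (B + n₄) * Q ^ 2 * wd' μ n := by
    refine mul_le_mul_of_nonneg_right ?_ (by linarith)
    nlinarith
  linarith

end Pool.Agent.W_7d29a1_Z21
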