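import Pool.Agent.W_7d29a1_SR.Reg2
import Pool.Agent.W_7d29a1_F.CoreD

/-!
STORM Z, Lemma NS (no steep places), step (2): the mass of the tilted polymer of duration `n + m` from a point `p` of a typical path.
(helper21)
-/

namespace Pool.Agent.W_7d29a1_Z21

open MeasureTheory ProbabilityTheory Filter Topology
open Pool.Agent.W_7d29a1_F Pool.Agent.W_7d29a1_h4g Pool.Agent.W_7d29a1_G Pool.Agent.W_7d29a1_L Pool.Agent.W_7d29a1_SR

variable {μ : Measure ℝ}

/-- Change of the tilt. -/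
theorem W_tilt21 (h : ℝ) (η : Env) (a : Pt) (n : ℕ) (y : ℤ) :
    W μ h η a n y = Real.exp (h * ((y : ℝ) - n / 2) - n * LL μ h) * W μ 0 η a n y := by
  unfold W WR LL
  rw [← mul_assoc, ← Real.exp_add]
  congr 2
  ring

/-- The typicality inequality at another tilt. -/
theorem typ_tilt21 {η : Env} {t x : ℤ} {n m : ℕ} {ya yq k : ℤ} {B : ℝ} (h : ℝ)
    (htyp : W μ 0 η (t, x) n k * W μ 0 η (t + n, x + k) m (ya + yq - k) ≤
      Real.exp B * (W μ 0 η (t, x) n ya * W μ 0 η (t + n, x + ya) m yq)) :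
    W μ h η (t, x) n k * W μ h η (t + n, x + k) m (ya + yq - k) ≤
      Real.exp B * (W μ h η (t, x) n ya * W μ h η (t + n, x + ya) m yq) := by
  rw [W_tilt21 h η (t, x) n k, W_tilt21 h η (t + n, x + k) m (ya + yq - k), W_tilt21 h η (t, x) n ya,
    W_tilt21 h η (t + n, x + ya) m yq]
  obtain ⟨E, hE⟩ : ∃ E : ℝ, E = Real.exp (h * (((ya : ℝ) + yq) - (n + m) / 2) - (n + m) * LL μ h) := ⟨_, rfl⟩
  have e1 : Real.exp (h * ((k : ℝ) - n / 2) - n * LL μ h) * Real.exp (h * (((ya + yq - k : ℤ) : ℝ) - m / 2) - m * LL μ h) = E := by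
    rw [hE, ← Real.exp_add]
    congr 1
    push_cast
    ring
  have e2 : Real.exp (h * ((ya : ℝ) - n / 2) - n * LL μ h) * Real.exp (h * ((yq : ℝ) - m / 2) - m * LL μ h) = E := by
    rw [hE, ← Real.exp_add]
    congr 1
    ring
  have hE0 : 0 ≤ E := hE ▸ (Real.exp_pos _).le
  calc _ = E * (W μ 0 η (t, x) n k * W μ 0 η (t + n, x + k) m (ya + yq - k)) := by rw [← e1]; ring
    _ ≤ E * (Real.exp B * (W μ 0 η (t, x) n ya * W μ 0 η (t + n, x + ya) m yq)) := mul_le_mul_of_nonneg_left htyp hE0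
    _ = _ := by rw [← e2]; ring

/-- The pairs which jump over the typical path. -/
theorem jump21 {s : ℝ} {η : Env} {t x : ℤ} {n m : ℕ} {ya yq k j : ℤ} {B : ℝ} (h0 : 0 ≤ yq) (h1 : yq ≤ m)
    (htyp : W μ s η (t, x) n k * W μ s η (t + n, x + k) m (ya + yq - k) ≤
      Real.exp B * (W μ s η (t, x) n ya * W μ s η (t + n, x + ya) m yq))
    (hk : k ≤ ya) (hj : ya + yq ≤ k + j) :
    W μ s η (t, x) n k * W μ s η (t + n, x + k) m j ≤
      Real.exp B * W μ s η (t, x) n ya * W μ s η (t + n, x + ya) m (k + j - ya) := by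
  have hpos : 0 < W μ s η (t + n, x + ya) m yq := W_pos _ _ h0 h1
  have htp := W_tp2 (μ := μ) (s := s) η (t + n) (x + k) (x + ya) m (x + (ya + yq)) (x + (k + j)) (by linarith) (by linarith)
  have e1 : x + (k + j) - (x + k) = j := by ring
  have e2 : x + (ya + yq) - (x + ya) = yq := by ring
  have e3 : x + (ya + yq) - (x + k) = ya + yq - k := by ring
  have e4 : x + (k + j) - (x + ya) = k + j - ya := by ring
  rw [e1, e2, e3, e4] at htp
  have hA := W_nonneg (μ := μ) (s := s) η (t, x) n k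
  have hD := W_nonneg (μ := μ) (s := s) η (t + n, x + ya) m (k + j - ya)
  refine le_of_mul_le_mul_right ?_ hpos
  calc W μ s η (t, x) n k * W μ s η (t + n, x + k) m j * W μ s η (t + n, x + ya) m yq
      = W μ s η (t, x) n k * (W μ s η (t + n, x + k) m j * W μ s η (t + n, x + ya) m yq) := by ring
    _ ≤ W μ s η (t, x) n k * (W μ s η (t + n, x + k) m (ya + yq - k) * W μ s η (t + n, x + ya) m (k + j - ya)) :=
        mul_le_mul_of_nonneg_left htp hA
    _ = W μ s η (t, x) n k * W μ s η (t + n, x + k) m (ya + yq - k) * W μ s η (t + n, x + ya) m (k + j - ya) := by ring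
    _ ≤ Real.exp B * (W μ s η (t, x) n ya * W μ s η (t + n, x + ya) m yq) * W μ s η (t + n, x + ya) m (k + j - ya) :=
        mul_le_mul_of_nonneg_right htyp hD
    _ = _ := by ring

/-- **The mass of the tilted polymer.** -/
theorem mass21 {s : ℝ} {η : Env} {t x : ℤ} {n m : ℕ} {ya yq : ℤ} {B : ℝ} (h0 : 0 ≤ yq) (h1 : yq ≤ m)
    (htyp : ∀ k : ℤ, 0 ≤ k → k ≤ n → W μ s η (t, x) n k * W μ s η (t + n, x + k) m (ya + yq - k) ≤
      Real.exp B * (W μ s η (t, x) n ya * W μ s η (t + n, x + ya) m yq)) :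
    Real.exp (V μ s η (t, x) (n + m)) ≤
      (n + 1) * (Real.exp B * W μ s η (t, x) n ya * Real.exp (V μ s η (t + n, x + ya) m)) +
      ∑ k ∈ Finset.Icc (0 : ℤ) n with ya ≤ k, W μ s η (t, x) n k * Real.exp (V μ s η (t + n, x + k) m) +
      ∑ y ∈ Finset.Icc (0 : ℤ) ((n + m : ℕ) : ℤ) with y ≤ ya + yq, W μ s η (t, x) (n + m) y := by
  classical
  obtain ⟨G, hG⟩ : ∃ G : ℝ, G = Real.exp B * W μ s η (t, x) n ya * Real.exp (V μ s η (t + n, x + ya) m) := ⟨_, rfl⟩
  have hG0 : 0 ≤ G := by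
    rw [hG]
    exact mul_nonneg (mul_nonneg (Real.exp_pos _).le (W_nonneg _ _ _ _)) (Real.exp_pos _).le
  rw [← hG]
  have key : ∀ k ∈ Finset.Icc (0 : ℤ) n, W μ s η (t, x) n k * Real.exp (V μ s η (t + n, x + k) m) ≤
      (G + if ya ≤ k then W μ s η (t, x) n k * Real.exp (V μ s η (t + n, x + k) m) else 0) +
        ∑ j ∈ Finset.Icc (0 : ℤ) m with k + j ≤ ya + yq, W μ s η (t, x) n k * W μ s η (t + n, x + k) m j := by
    intro k hk
    rw [Finset.mem_Icc] at hk
    have hs0 : 0 ≤ ∑ j ∈ Finset.Icc (0 : ℤ) m with k + j ≤ ya + yq, W μ s η (t, x) n k * W μ s η (t + n, x + k) m j :=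
      Finset.sum_nonneg fun j _ => mul_nonneg (W_nonneg _ _ _ _) (W_nonneg _ _ _ _)
    by_cases hya : ya ≤ k
    · rw [if_pos hya]
      linarith
    · rw [if_neg hya, add_zero]
      rw [exp_V]
      unfold WS
      rw [Finset.mul_sum, ← Finset.sum_filter_add_sum_filter_not (Finset.Icc (0 : ℤ) m) (fun j => k + j ≤ ya + yq), add_comm]
      refine add_le_add ?_ le_rfl
      have h2 : ∀ j ∈ (Finset.Icc (0 : ℤ) m).filter (fun j => ¬ k + j ≤ ya + yq),
          W μ s η (t, x) n k * W μ s η (t + n, x + k) m j ≤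
            Real.exp B * W μ s η (t, x) n ya * W μ s η (t + n, x + ya) m (k + j - ya) := by
        intro j hj
        rw [Finset.mem_filter] at hj
        exact jump21 h0 h1 (htyp k hk.1 hk.2) (by omega) (by omega)
      refine (Finset.sum_le_sum h2).trans ?_
      rw [← Finset.mul_sum, hG]
      refine mul_le_mul_of_nonneg_left ?_ (mul_nonneg (Real.exp_pos _).le (W_nonneg _ _ _ _))
      have h3 := WS_le_exp_V (μ := μ) (s := s) η (t + n, x + ya) m
        (((Finset.Icc (0 : ℤ) m).filter (fun j => ¬ k + j ≤ ya + yq)).image fun j => k + j - ya)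
      unfold WS at h3
      rw [Finset.sum_image (fun a _ b _ hab => by
        have hab' : k + a - ya = k + b - ya := hab
        omega)] at h3
      exact h3
  rw [exp_V_add]
  refine (Finset.sum_le_sum key).trans ?_
  rw [Finset.sum_add_distrib, Finset.sum_add_distrib]
  have hc : ∑ _k ∈ Finset.Icc (0 : ℤ) n, G = (n + 1) * G := by
    rw [Finset.sum_const, Int.card_Icc, nsmul_eq_mul]
    have : ((n : ℤ) + 1 - 0).toNat = n + 1 := by omega
    rw [this]
    push_cast
    ring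
  rw [hc, ← Finset.sum_filter]
  refine add_le_add le_rfl ?_
  -- the last sum
  have hadd : ∀ y : ℤ, W μ s η (t, x) (n + m) y =
      ∑ k ∈ Finset.Icc (0 : ℤ) n, W μ s η (t, x) n k * W μ s η (t + n, x + k) m (y - k) := fun y => W_add η (t, x) n m y
  rw [Finset.sum_congr rfl fun y _ => hadd y, Finset.sum_comm]
  refine Finset.sum_le_sum fun k hk => ?_
  rw [Finset.mem_Icc] at hk
  have h4 : ∑ j ∈ Finset.Icc (0 : ℤ) m with k + j ≤ ya + yq, W μ s η (t, x) n k * W μ s η (t + n, x + k) m j =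
      ∑ y ∈ ((Finset.Icc (0 : ℤ) m).filter (fun j => k + j ≤ ya + yq)).image (fun j => k + j),
        W μ s η (t, x) n k * W μ s η (t + n, x + k) m (y - k) := by
    rw [Finset.sum_image (fun a _ b _ hab => by
      have hab' : k + a = k + b := hab
      omega)]
    refine Finset.sum_congr rfl fun j _ => ?_
    rw [show k + j - k = j by ring]
  rw [h4]
  refine Finset.sum_le_sum_of_subset_of_nonneg ?_ fun y _ _ => mul_nonneg (W_nonneg _ _ _ _) (W_nonneg _ _ _ _)
  intro y hy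
  rw [Finset.mem_image] at hy
  obtain ⟨j, hj, rfl⟩ := hy
  rw [Finset.mem_filter, Finset.mem_Icc] at hj ⊢
  push_cast
  exact ⟨⟨by omega, by omega⟩, hj.2⟩

end Pool.Agent.W_7d29a1_Z21
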