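import Pool.Agent.W_7d29a1_Z21.Step
import Pool.Agent.W_7d29a1_Z21.Refl

/-!
STORM Z, Lemma NS: the growth in all directions and the iteration up to the top scale. (helper21)
-/

namespace Pool.Agent.W_7d29a1_Z21

open MeasureTheory ProbabilityTheory Filter Topology
open Pool.Agent.W_7d29a1_F Pool.Agent.W_7d29a1_h4g Pool.Agent.W_7d29a1_G Pool.Agent.W_7d29a1_L Pool.Agent.W_7d29a1_SR
open Pool.Agent.W_7d29a1_SL (rho mp_rho)
open Pool.Agent.W_7d29a1_g (rv)

variable {μ : Measure ℝ} [IsProbabilityMeasure μ] {c C : ℝ} {n₀ : ℕ}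

/-- A path up to the time `N`. -/
structure Pa21 (N : ℕ) (P : ℕ → ℤ) : Prop where
  st : ∀ i, i < N → P i ≤ P (i + 1) ∧ P (i + 1) ≤ P i + 1
  bx : ∀ i, i ≤ N → |P i| ≤ 2 * N

theorem Pa21.le {N : ℕ} {P : ℕ → ℤ} (h : Pa21 N P) (i n : ℕ) (hN : i + n ≤ N) : P i ≤ P (i + n) ∧ P (i + n) ≤ P i + n := by
  induction n with
  | zero => simp
  | succ n ih =>
    have h1 := ih (by omega)
    have h2 := h.st (i + n) (by omega)
    rw [← add_assoc]
    push_cast
    omega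

theorem Pa21.rho {N : ℕ} {P : ℕ → ℤ} (h : Pa21 N P) (hb : ∀ i, i ≤ N → |(i : ℤ) - P i| ≤ 2 * N) :
    Pa21 N fun i => i - P i where
  st := fun i hi => by
    have := h.st i hi
    push_cast
    omega
  bx := hb

theorem Pa21.rv {N : ℕ} {P : ℕ → ℤ} (h : Pa21 N P) : Pa21 N fun i => -P (N - i) where
  st := fun i hi => by
    have h1 := h.st (N - (i + 1)) (by omega)
    have e : N - (i + 1) + 1 = N - i := by omega
    rw [e] at h1
    omega
  bx := fun i _ => by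
    rw [abs_neg]
    exact h.bx (N - i) (by omega)

/-- Growth to the right, forward. -/
theorem fwd21 {b Q d g v₀ c₂ Λ : ℝ} {n₁ T N : ℕ} {η : Env} {P : ℕ → ℤ} (hS : Stp21 μ c b d g v₀ c₂ Λ n₁ T) (hT : 2 ≤ T)
    (hQ : 1 ≤ Q) (hE : Env21 μ c b Q d g v₀ n₁ N η) (hty : Typ21 μ Q N η P) (hP : Pa21 N P) {i n : ℕ} (hn : 1 ≤ n)
    (hi : i + T * n ≤ N) (hD : (n : ℤ) < 2 * (P (i + n) - P i)) (hb : Λ * Q * EE μ n ≤ ph21 μ n (P (i + n) - P i)) :
    2 * ph21 μ n (P (i + n) - P i) * EE μ (T * n) ≤ ph21 μ (T * n) (P (i + T * n) - P i) * EE μ n ∨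
      c₂ * (T * n : ℕ) ≤ ph21 μ (T * n) (P (i + T * n) - P i) := by
  have e1 : i + n + (T - 1) * n = i + T * n := by
    obtain ⟨T', rfl⟩ : ∃ T', T = T' + 1 := ⟨T - 1, by omega⟩
    rw [Nat.add_sub_cancel]
    ring
  have hle1 := hP.le i n (by omega)
  have hle2 := hP.le (i + n) ((T - 1) * n) (by omega)
  rw [e1] at hle2
  have hty' := hty i n ((T - 1) * n) (by omega)
  rw [e1] at hty'
  have e2 : P (i + T * n) - P i = (P (i + n) - P i) + (P (i + T * n) - P (i + n)) := by ring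
  have e3 : P i + (P (i + n) - P i) = P (i + n) := by ring
  rw [e2]
  refine hS Q hQ N η hE i (P i) n (P (i + n) - P i) (P (i + T * n) - P (i + n)) (by omega) (by push_cast at hi ⊢; exact_mod_cast hi)
    (hP.bx i (by omega)) hn (by omega) (by omega) (by omega) hD ?_ hb
  intro k hk0 hk1
  have h1 := hty' k hk0 hk1
  rw [e3, ← e2]
  exact h1

/-- The regular environments: also the reflected and the reversed environment. -/
structure Env4 (μ : Measure ℝ) (c b Q d g v₀ : ℝ) (n₁ N : ℕ) (η : Env) : Prop where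
  e1 : Env21 μ c b Q d g v₀ n₁ N η
  e2 : Env21 μ c b Q d g v₀ n₁ N (rho 0 η)
  e3 : Env21 μ c b Q d g v₀ n₁ N (rv ((N : ℤ), 0) η)
  e4 : Env21 μ c b Q d g v₀ n₁ N (rho 0 (rv ((N : ℤ), 0) η))

/-- Growth forward, to the right or to the left. -/
theorem fwd2 {b Q d g v₀ c₂ Λ : ℝ} {n₁ T N : ℕ} {η : Env} {P : ℕ → ℤ} (hS : Stp21 μ c b d g v₀ c₂ Λ n₁ T) (hT : 2 ≤ T)
    (hQ : 1 ≤ Q) (hE : Env21 μ c b Q d g v₀ n₁ N η) (hE' : Env21 μ c b Q d g v₀ n₁ N (rho 0 η)) (hty : Typ21 μ Q N η P)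
    (hP : Pa21 N P) (hb' : ∀ i, i ≤ N → |(i : ℤ) - P i| ≤ 2 * N) {i n : ℕ} (hn : 1 ≤ n)
    (hi : i + T * n ≤ N) (hD : (n : ℤ) ≠ 2 * (P (i + n) - P i)) (hb : Λ * Q * EE μ n ≤ ph21 μ n (P (i + n) - P i)) :
    2 * ph21 μ n (P (i + n) - P i) * EE μ (T * n) ≤ ph21 μ (T * n) (P (i + T * n) - P i) * EE μ n ∨
      c₂ * (T * n : ℕ) ≤ ph21 μ (T * n) (P (i + T * n) - P i) := by
  rcases lt_or_gt_of_ne hD with h1 | h1
  · exact fwd21 hS hT hQ hE hty hP hn hi h1 hb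
  · have h2 := typ_rho21 hty
    have h3 := hP.rho hb'
    have e : ∀ m : ℕ, ((i + m : ℕ) : ℤ) - P (i + m) - ((i : ℤ) - P i) = m - (P (i + m) - P i) := fun m => by
      push_cast
      ring
    have h4 := fwd21 hS hT hQ hE' h2 h3 (i := i) (n := n) hn hi (by
      rw [e n]
      omega) (by
      rw [e n, ph_neg21]
      exact hb)
    rw [e n, e (T * n), ph_neg21, ph_neg21] at h4
    exact h4

/-- Growth in some direction of time. -/
theorem grow21 {b Q d g v₀ c₂ Λ : ℝ} {n₁ T N : ℕ} {η : Env} {P : ℕ → ℤ} (hS : Stp21 μ c b d g v₀ c₂ Λ n₁ T) (hT : 2 ≤ T)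
    (hQ : 1 ≤ Q) (hE : Env4 μ c b Q d g v₀ n₁ N η) (hty : Typ21 μ Q N η P) (hP : Pa21 N P)
    (h0 : ∀ i, i ≤ N → 0 ≤ P i ∧ P i ≤ i) {i n : ℕ} (hn : 1 ≤ n) (hi : i + n ≤ N) (hTn : 2 * (T * n) ≤ N)
    (hD : (n : ℤ) ≠ 2 * (P (i + n) - P i)) (hb : Λ * Q * EE μ n ≤ ph21 μ n (P (i + n) - P i)) :
    ∃ j : ℕ, j + T * n ≤ N ∧ (2 * ph21 μ n (P (i + n) - P i) * EE μ (T * n) ≤
      ph21 μ (T * n) (P (j + T * n) - P j) * EE μ n ∨ c₂ * (T * n : ℕ) ≤ ph21 μ (T * n) (P (j + T * n) - P j)) := by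
  rcases le_or_gt (i + T * n) N with h1 | h1
  · refine ⟨i, h1, fwd2 hS hT hQ hE.e1 hE.e2 hty hP (fun k hk => ?_) hn h1 hD hb⟩
    have := h0 k hk
    rw [abs_le]
    constructor <;> omega
  · have hnT : n ≤ T * n := Nat.le_mul_of_pos_left n (by omega)
    have hi2 : T * n ≤ i + n := by omega
    refine ⟨i + n - T * n, by omega, ?_⟩
    obtain ⟨i', hi'⟩ : ∃ i' : ℕ, i' = N - (i + n) := ⟨_, rfl⟩
    have e0 : N - i' = i + n := by omega
    have e1 : N - (i' + n) = i := by omega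
    have e2 : N - (i' + T * n) = i + n - T * n := by omega
    have e3 : i + n - T * n + T * n = i + n := by omega
    have h2 := fwd2 hS hT hQ hE.e3 hE.e4 (typ_rv21 hty) hP.rv (fun k hk => by
      have := h0 (N - k) (by omega)
      rw [abs_le]
      constructor <;> omega) (i := i') (n := n) hn (by omega) (by
        simp only [e0, e1]
        omega) (by
        simp only [e0, e1]
        have e : -P i - -P (i + n) = P (i + n) - P i := by ring
        rw [e]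
        exact hb)
    simp only [e0, e1, e2] at h2
    rw [e3]
    have e : -P i - -P (i + n) = P (i + n) - P i := by ring
    have e' : -P (i + n - T * n) - -P (i + n) = P (i + n) - P (i + n - T * n) := by ring
    rw [e, e'] at h2
    exact h2

/-- **THE ITERATION.** -/
theorem iter21 (h : In μ c C n₀) {b Q d g v₀ c₂ Λ Λ' : ℝ} {n₁ T N : ℕ} {η : Env} {P : ℕ → ℤ}
    (hS : Stp21 μ c b d g v₀ c₂ Λ n₁ T) (hT : 2 ≤ T)
    (hQ : 1 ≤ Q) (hE : Env4 μ c b Q d g v₀ n₁ N η) (hty : Typ21 μ Q N η P) (hP : Pa21 N P)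
    (h0 : ∀ i, i ≤ N → 0 ≤ P i ∧ P i ≤ i) (hΛ0 : 0 < Λ') (hΛ : Λ * Q ≤ Λ')
    (htop : ∀ i n : ℕ, 1 ≤ n → i + n ≤ N → N < 2 * (T * n) → ph21 μ n (P (i + n) - P i) < Λ' * EE μ n)
    {n₃ : ℕ} (hn₃ : ∀ n : ℕ, n₃ ≤ n → 1 ≤ n → Λ' * EE μ n < c₂ * n) :
    ∀ i n : ℕ, n₃ ≤ n → 1 ≤ n → i + n ≤ N → ph21 μ n (P (i + n) - P i) < Λ' * EE μ n := by
  have key : ∀ k : ℕ, ∀ i n : ℕ, N ≤ n + k → n₃ ≤ n → 1 ≤ n → i + n ≤ N → ph21 μ n (P (i + n) - P i) < Λ' * EE μ n := by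
    intro k
    induction k using Nat.strong_induction_on with
    | _ k ih =>
      intro i n hk hn3 hn1 hin
      rcases lt_or_ge N (2 * (T * n)) with h1 | h1
      · exact htop i n hn1 hin h1
      by_contra hcon
      push Not at hcon
      have hEn := EE_pos (μ := μ) n
      have hD : (n : ℤ) ≠ 2 * (P (i + n) - P i) := by
        intro hD
        have hz : ph21 μ n (P (i + n) - P i) = 0 := by
          unfold ph21
          have : (((P (i + n) - P i : ℤ)) : ℝ) - n / 2 = 0 := by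
            have : (n : ℝ) = 2 * ((P (i + n) - P i : ℤ) : ℝ) := by exact_mod_cast hD
            linarith
          rw [this, abs_zero, zero_div, J_zero h.em, mul_zero]
        rw [hz] at hcon
        have : 0 < Λ' * EE μ n := by positivity
        linarith
      have hb : Λ * Q * EE μ n ≤ ph21 μ n (P (i + n) - P i) := (mul_le_mul_of_nonneg_right hΛ hEn.le).trans hcon
      obtain ⟨j, hj, hjj⟩ := grow21 hS hT hQ hE hty hP h0 hn1 hin h1 hD hb
      have hnT : 2 * n ≤ T * n := Nat.mul_le_mul_right n hT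
      have h2 := ih (k - 1) (by omega) j (T * n) (by omega) (by omega) (by omega) hj
      have hET := EE_pos (μ := μ) (T * n)
      rcases hjj with h3 | h3
      · have h4 : 2 * (Λ' * EE μ n) * EE μ (T * n) ≤ 2 * ph21 μ n (P (i + n) - P i) * EE μ (T * n) :=
          mul_le_mul_of_nonneg_right (by linarith) hET.le
        have h5 : ph21 μ (T * n) (P (j + T * n) - P j) * EE μ n < Λ' * EE μ (T * n) * EE μ n := mul_lt_mul_of_pos_right h2 hEn
        have h6 : 0 < Λ' * EE μ (T * n) * EE μ n := by positivity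
        nlinarith
      · have h4 := hn₃ (T * n) (by omega) (by omega)
        linarith
  intro i n hn3 hn1 hin
  exact key N i n (by omega) hn3 hn1 hin

end Pool.Agent.W_7d29a1_Z21
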