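import Pool.Agent.W_7d29a1_Z21.Det
import Pool.Agent.W_7d29a1_Z.PthB
import Pool.Agent.W_7d29a1_Z74.P2P
import Pool.Agent.W_7d29a1_Z74.Num74

/-!
STORM Z, leaf NS: no steep places, from the two inputs `EnvP21` (regular environments) and `TypP21` (typical paths). (helper21)
-/

namespace Pool.Agent.W_7d29a1_Z21

open MeasureTheory ProbabilityTheory Filter Topology Finset
open Pool.Agent.W_7d29a1_F Pool.Agent.W_7d29a1_h4g Pool.Agent.W_7d29a1_G Pool.Agent.W_7d29a1_L Pool.Agent.W_7d29a1_SR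
open Pool.Agent.W_7d29a1_SL (rho mp_rho)
open Pool.Agent.W_7d29a1_g (rv)
open Pool.Agent.W_7d29a1_X (pos pos_nonneg pos_le pos_zero)
open Pool.Agent.W_7d29a1_Z (wd' P1 gp P1_mono36 P1_or36 gp_meas36 sum_gp_le_one gp_nonneg36)
open scoped ENNReal

variable {μ : Measure ℝ} [IsProbabilityMeasure μ] {c C : ℝ} {n₀ : ℕ}

/-- An event of the environment alone. -/
theorem P1_env21 (N : ℕ) (y : ℤ) (A : Env → Prop) : P1 μ N y (fun η _ => A η) ≤ law μ {η | A η} := by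
  obtain ⟨B, hB⟩ : ∃ B : Set Env, B = toMeasurable (law μ) {η | A η} := ⟨_, rfl⟩
  have hBm : MeasurableSet B := hB ▸ measurableSet_toMeasurable _ _
  have hAB : {η | A η} ⊆ B := hB ▸ subset_toMeasurable _ _
  have hBA : law μ B = law μ {η | A η} := hB ▸ measure_toMeasurable _
  have hm : ∀ S, Measurable fun η : Env => ENNReal.ofReal (gp μ η N y S) := fun S => (gp_meas36 N y S).ennreal_ofReal
  calc P1 μ N y (fun η _ => A η) ≤ ∑ S ∈ (range N).powerset,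
        ((law μ).withDensity fun η => ENNReal.ofReal (gp μ η N y S)) B := by
        unfold P1
        exact sum_le_sum fun S _ => measure_mono hAB
    _ = ∑ S ∈ (range N).powerset, ∫⁻ η in B, ENNReal.ofReal (gp μ η N y S) ∂(law μ) :=
        sum_congr rfl fun S _ => withDensity_apply _ hBm
    _ = ∫⁻ η in B, ∑ S ∈ (range N).powerset, ENNReal.ofReal (gp μ η N y S) ∂(law μ) := by
        rw [lintegral_finsetSum _ fun S _ => hm S]
    _ ≤ ∫⁻ _η in B, 1 ∂(law μ) := by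
        refine lintegral_mono fun η => ?_
        rw [← ENNReal.ofReal_sum_of_nonneg fun S _ => gp_nonneg36 η N y S]
        exact ENNReal.ofReal_le_one.2 (sum_gp_le_one η N y)
    _ = law μ {η | A η} := by rw [setLIntegral_one, hBA]

/-- The end point of the path is fixed. -/
theorem P1_end21 (N : ℕ) (y : ℤ) : P1 μ N y (fun _ S => pos S N ≠ y) = 0 := by
  unfold P1
  refine sum_eq_zero fun S _ => ?_
  by_cases h : pos S N = y
  · simp [h]
  · have e : (fun η : Env => ENNReal.ofReal (gp μ η N y S)) = fun _ => 0 := by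
      funext η
      unfold gp
      rw [if_neg h, ENNReal.ofReal_zero]
    rw [e]
    simp

theorem mp_rv21 (Z : Pt) : MeasurePreserving (rv Z) (law μ) (law μ) := by
  refine mp_reindex (fun p : Pt => Z - p) ?_
  intro p q h
  exact sub_right_injective h

/-- Regular environments, all four. -/
theorem env4_21 {b Q d g v₀ : ℝ} {n₁ N : ℕ} {q : ℝ≥0∞} (h : law μ {η | ¬ Env21 μ c b Q d g v₀ n₁ N η} ≤ q) :
    law μ {η | ¬ Env4 μ c b Q d g v₀ n₁ N η} ≤ q + q + (q + q) := by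
  obtain ⟨A, hA⟩ : ∃ A : Set Env, A = {η | ¬ Env21 μ c b Q d g v₀ n₁ N η} := ⟨_, rfl⟩
  rw [← hA] at h
  have hpre : ∀ f : Env → Env, MeasurePreserving f (law μ) (law μ) → law μ (f ⁻¹' A) ≤ q := fun f hf =>
    (Measure.le_map_apply hf.measurable.aemeasurable A).trans (by rw [hf.map_eq]; exact h)
  have hsub : {η | ¬ Env4 μ c b Q d g v₀ n₁ N η} ⊆
      A ∪ (rho 0 ⁻¹' A) ∪ ((rv ((N : ℤ), 0) ⁻¹' A) ∪ ((fun η => rho 0 (rv ((N : ℤ), 0) η)) ⁻¹' A)) := by
    intro η hη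
    by_contra hcon
    apply hη
    simp only [Set.mem_union, not_or, Set.mem_preimage, hA, Set.mem_ofPred_eq, not_not] at hcon
    exact ⟨hcon.1.1, hcon.1.2, hcon.2.1, hcon.2.2⟩
  refine (measure_mono hsub).trans ((measure_union_le _ _).trans ?_)
  refine add_le_add ((measure_union_le _ _).trans (add_le_add h (hpre _ (mp_rho 0))))
    ((measure_union_le _ _).trans (add_le_add (hpre _ (mp_rv21 _)) (hpre _ ((mp_rho 0).comp (mp_rv21 _)))))

/-- The path of a set of up steps. -/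
theorem pa_pos21 (N : ℕ) (S : Finset ℕ) : Pa21 N (pos S) where
  st := fun i _ => by
    unfold pos
    rw [range_add_one]
    by_cases h : i ∈ S
    · rw [inter_insert_of_mem h, card_insert_of_notMem (by simp)]
      push_cast
      omega
    · rw [inter_insert_of_notMem h]
      omega
  bx := fun i hi => by
    have h1 := pos_nonneg S i
    have h2 := pos_le S i
    rw [abs_le]
    constructor <;> omega

/-- **LEMMA NS.** -/
theorem ns21 (h : In μ c C n₀) (hF : HF2 μ) (hEnv : EnvP21 μ c) (hTyp : TypP21 μ) :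
    ∀ ε : ℝ, 0 < ε → ∃ δ c' : ℝ, 0 < δ ∧ 0 < c' ∧ ∃ L₀ : ℕ, ∀ L : ℕ, L₀ ≤ L → ∀ N : ℕ, L ≤ 16 * N → N ≤ L →
    ∀ y : ℤ, 0 ≤ y → y ≤ N → |2 * (y : ℝ) - N| ≤ 2 * ((L : ℝ) ^ δ * wd' μ N) →
    P1 μ N y (fun _ S => ¬ ∀ i n : ℕ, 1 ≤ n → i + n ≤ N →
      |2 * ((pos S (i + n) - pos S i : ℤ) : ℝ) - n| ≤ 2 * ((L : ℝ) ^ ε * wd' μ n)) ≤
      ENNReal.ofReal (Real.exp (-(L : ℝ) ^ c')) := by
  intro ε hε
  obtain ⟨e, he⟩ : ∃ e : ℝ, e = ε / 3 := ⟨_, rfl⟩
  have he0 : 0 < e := by rw [he]; positivity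
  obtain ⟨b, hb, hEnv1⟩ := hEnv e he0
  obtain ⟨g, d, hg, hgc, hd, hdet⟩ := det21 h hF hb
  obtain ⟨n₁, hEnv2⟩ := hEnv1 g d hg hgc hd
  obtain ⟨v₁, hv₁, hdet2⟩ := hdet n₁
  obtain ⟨v₀, hv₀, hv₀1, c₁, hc₁, L₁, hEnv3⟩ := hEnv2 v₁ hv₁
  obtain ⟨K, hK, hdet3⟩ := hdet2 v₀ hv₀ hv₀1
  obtain ⟨K₀, A, a, γ, hK₀, hA, ha, hγ, -, hp2p⟩ := Pool.Agent.W_7d29a1_Z74.p2p_tail h hF
  obtain ⟨δ, hδ⟩ : ∃ δ : ℝ, δ = e / (2 * K₀) := ⟨_, rfl⟩
  have hδ0 : 0 < δ := by rw [hδ]; positivity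
  obtain ⟨c', hc'⟩ : ∃ c' : ℝ, c' = min (min e c₁) (δ * γ) / 2 := ⟨_, rfl⟩
  have hmin : 0 < min (min e c₁) (δ * γ) := by positivity
  have hc'0 : 0 < c' := by rw [hc']; positivity
  have hce : c' < e := by
    have : min (min e c₁) (δ * γ) ≤ e := (min_le_left _ _).trans (min_le_left _ _)
    rw [hc']; linarith
  have hcc : c' < c₁ := by
    have : min (min e c₁) (δ * γ) ≤ c₁ := (min_le_left _ _).trans (min_le_right _ _)
    rw [hc']; linarith
  have hcg : c' < δ * γ := by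
    have : min (min e c₁) (δ * γ) ≤ δ * γ := min_le_right _ _
    rw [hc']; linarith
  obtain ⟨n₅, hn₅⟩ := eventually_atTop.1 ((wd_tendsto h).eventually_ge_atTop 1)
  have ev1 := Pool.Agent.W_7d29a1_Z74.ev_pow_le (b := ε) (c := 2 * e) (by rw [he]; linarith) (K := K) (a := 1) one_pos
  have ev2 := Pool.Agent.W_7d29a1_Z74.ev_pow_le (b := e) (c := δ * K₀) (by rw [hδ]; field_simp; linarith) (K := K₀) (a := 1) one_pos
  have ev3 := Pool.Agent.W_7d29a1_Z74.ev_exp (A := 2 * 16) (a := 1) (b := e) (c := c') (by norm_num) one_pos he0 hce 4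
  have ev4 := Pool.Agent.W_7d29a1_Z74.ev_exp (A := 2 * 4) (a := 1) (b := c₁) (c := c') (by norm_num) one_pos hc₁ hcc 0
  have ev5 := Pool.Agent.W_7d29a1_Z74.ev_exp (A := A) (a := a) (b := δ * γ) (c := c') hA ha (by positivity) hcg 0
  obtain ⟨L₂, hL₂⟩ := eventually_atTop.1 (((ev1.and ev2).and (ev3.and ev4)).and ev5)
  refine ⟨δ, c', hδ0, hc'0, max (max L₁ L₂) (16 * n₅ + 16), fun L hL N hLN hNL y hy0 hyN hy => ?_⟩
  obtain ⟨⟨⟨h1, h2⟩, h3, h4⟩, h5⟩ := hL₂ L ((le_max_right _ _).trans ((le_max_left _ _).trans hL))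
  have hLL₁ : L₁ ≤ L := (le_max_left _ _).trans ((le_max_left _ _).trans hL)
  have hL16 : 16 * n₅ + 16 ≤ L := (le_max_right _ _).trans hL
  have hN5 : n₅ ≤ N := by omega
  have hN1 : 1 ≤ N := by omega
  have hL1 : (1 : ℝ) ≤ L := by exact_mod_cast (by omega : 1 ≤ L)
  have hL0 : (0 : ℝ) < L := by linarith
  obtain ⟨Q, hQ⟩ : ∃ Q : ℝ, Q = (L : ℝ) ^ e := ⟨_, rfl⟩
  have hQ1 : 1 ≤ Q := hQ ▸ Real.one_le_rpow hL1 he0.le
  -- the bad events
  have hcov : ∀ (η : Env) (S : Finset ℕ), S ⊆ range N → (¬ ∀ i n : ℕ, 1 ≤ n → i + n ≤ N →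
      |2 * ((pos S (i + n) - pos S i : ℤ) : ℝ) - n| ≤ 2 * ((L : ℝ) ^ ε * wd' μ n)) →
      ((pos S N ≠ y ∨ ¬ Typ21 μ Q N η (pos S)) ∨ (¬ Env4 μ c b Q d g v₀ n₁ N η ∨ Q * EE μ N < X μ 0 η 0 N y)) := by
    intro η S _ hS
    by_contra hcon
    push Not at hcon
    obtain ⟨⟨hc1, hc2⟩, hc3, hc4⟩ := hcon
    apply hS
    intro i n hn hin
    have h6 := hdet3 Q hQ1 N η (pos S) hc3 hc2 (pa_pos21 N S) (fun i _ => ⟨pos_nonneg S i, pos_le S i⟩)
      (by rw [hc1]; exact hc4) i n hn hin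
    refine h6.trans ?_
    have hw1 : 0 ≤ wd' μ n := zero_le_one.trans (le_max_left _ _)
    have h7 : K * Q ^ 2 ≤ (L : ℝ) ^ ε := by
      have : Q ^ 2 = (L : ℝ) ^ (2 * e) := by
        rw [hQ, ← Real.rpow_natCast, ← Real.rpow_mul hL0.le]
        congr 1
        push_cast
        ring
      rw [this]
      linarith
    have := mul_le_mul_of_nonneg_right h7 hw1
    linarith
  have hP := P1_mono36 (μ := μ) (N := N) (y := y) hcov
  refine hP.trans ((P1_or36 _ _).trans ?_)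
  have q1 : P1 μ N y (fun η S => pos S N ≠ y ∨ ¬ Typ21 μ Q N η (pos S)) ≤
      ENNReal.ofReal (((N : ℝ) + 1) ^ 4 * Real.exp (-Q)) := by
    refine (P1_or36 (fun _ S => pos S N ≠ y) _).trans ?_
    rw [P1_end21, zero_add]
    exact hTyp N y Q hy0 hyN
  have q2 : P1 μ N y (fun η S => ¬ Env4 μ c b Q d g v₀ n₁ N η ∨ Q * EE μ N < X μ 0 η 0 N y) ≤
      ENNReal.ofReal (4 * Real.exp (-(L : ℝ) ^ c₁)) + ENNReal.ofReal (A * Real.exp (-(a * (L : ℝ) ^ (δ * γ)))) := by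
    refine (P1_or36 (fun η _ => ¬ Env4 μ c b Q d g v₀ n₁ N η) _).trans (add_le_add ?_ ?_)
    · refine (P1_env21 N y fun η => ¬ Env4 μ c b Q d g v₀ n₁ N η).trans ?_
      have h6 := hEnv3 L hLL₁ N hNL
      rw [← hQ] at h6
      have h7 : law μ {η | ¬ Env21 μ c b Q d g v₀ n₁ N η} ≤ ENNReal.ofReal (Real.exp (-(L : ℝ) ^ c₁)) := by
        rw [← ofReal_measureReal]
        exact ENNReal.ofReal_le_ofReal h6
      refine (env4_21 h7).trans (le_of_eq ?_)
      have h8 := (Real.exp_pos (-(L : ℝ) ^ c₁)).le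
      rw [← ENNReal.ofReal_add h8 h8, ← ENNReal.ofReal_add (by positivity) (by positivity)]
      congr 1
      ring
    · refine (P1_env21 N y fun η => Q * EE μ N < X μ 0 η 0 N y).trans ?_
      have hwd : wd' μ N = wd μ N := max_eq_right (hn₅ N hN5)
      have h6 := hp2p N hN1 y hy0 hyN ((L : ℝ) ^ δ) (Real.one_le_rpow hL1 hδ0.le) (by
        rw [hwd] at hy
        have e6 : |(y : ℝ) - N / 2| = |2 * (y : ℝ) - N| / 2 := by
          rw [show 2 * (y : ℝ) - N = 2 * ((y : ℝ) - N / 2) by ring, abs_mul, abs_of_pos (show (0 : ℝ) < 2 by norm_num)]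
          ring
        rw [e6]
        linarith)
      rw [← Real.rpow_mul hL0.le, ← Real.rpow_mul hL0.le] at h6
      rw [← ofReal_measureReal]
      refine ENNReal.ofReal_le_ofReal (le_trans (measureReal_mono fun η hη => ?_) h6)
      rw [Set.mem_ofPred_eq] at hη ⊢
      refine le_trans ?_ hη.le
      refine mul_le_mul_of_nonneg_right ?_ (EE_pos _).le
      rw [hQ]
      linarith
  refine (add_le_add q1 q2).trans ?_
  have hx := (Real.exp_pos (-(L : ℝ) ^ c')).le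
  rw [← ENNReal.ofReal_add (by positivity) (by positivity), ← ENNReal.ofReal_add (by positivity) (by positivity)]
  refine ENNReal.ofReal_le_ofReal ?_
  rw [Real.rpow_zero, mul_one] at h4 h5
  rw [one_mul] at h3 h4
  have h6 : ((N : ℝ) + 1) ^ 4 * Real.exp (-Q) ≤ 1 / 4 * Real.exp (-(L : ℝ) ^ c') := by
    have h7 : ((N : ℝ) + 1) ^ 4 ≤ 16 * (L : ℝ) ^ (4 : ℝ) := by
      have h8 : (N : ℝ) + 1 ≤ 2 * L := by
        have : (N : ℝ) ≤ L := by exact_mod_cast hNL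
        linarith
      have h9 : ((L : ℝ) ^ (4 : ℝ)) = (L : ℝ) ^ (4 : ℕ) := by
        rw [← Real.rpow_natCast]
        norm_num
      rw [h9]
      calc ((N : ℝ) + 1) ^ 4 ≤ (2 * L) ^ 4 := pow_le_pow_left₀ (by positivity) h8 4
        _ = _ := by ring
    have h8 := mul_le_mul_of_nonneg_right h7 (Real.exp_pos (-Q)).le
    rw [← hQ] at h3
    linarith
  linarith

end Pool.Agent.W_7d29a1_Z21
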