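import Pool.Agent.W_7d29a1_SR.Reg2
import Pool.Agent.W_7d29a1_SL.Cor
import Pool.Agent.W_7d29a1_Z21.Def

/-!
STORM Z, Lemma NS (no steep places): the numbers. The rate function at comparable slopes and the tilt which belongs to a slope.
(helper21)
-/

namespace Pool.Agent.W_7d29a1_Z21

open MeasureTheory ProbabilityTheory Filter Topology
open Pool.Agent.W_7d29a1_F Pool.Agent.W_7d29a1_h4g Pool.Agent.W_7d29a1_G Pool.Agent.W_7d29a1_L Pool.Agent.W_7d29a1_SR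

variable {μ : Measure ℝ} [IsProbabilityMeasure μ] {c C : ℝ} {n₀ : ℕ}

/-- The rate function grows at most like a power, at all slopes. -/
theorem J_up21 (h : In μ c C n₀) (hF : HF2 μ) : ∃ K : ℝ, 1 ≤ K ∧ ∀ v x : ℝ, 0 < v → 1 ≤ x → x * v ≤ 1 / 2 →
    J μ (x * v) ≤ K * x ^ K * J μ v := by
  obtain ⟨a, K, ha, hK, hreg⟩ := J_reg h hF
  obtain ⟨b, hb⟩ : ∃ b : ℝ, b = min a (1 / 2) := ⟨_, rfl⟩
  have hb0 : 0 < b := by rw [hb]; positivity
  have hba : b ≤ a := hb ▸ min_le_left _ _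
  have hbh : b ≤ 1 / 2 := hb ▸ min_le_right _ _
  have hJb : 0 < J μ b := J_pos h.em h.nd hb0 hbh
  have hJh : 0 ≤ J μ (1 / 2) := J_nonneg h.em (by rw [abs_of_pos (by norm_num)])
  obtain ⟨M, hM⟩ : ∃ M : ℝ, M = max 1 (J μ (1 / 2) / J μ b) := ⟨_, rfl⟩
  have hM1 : 1 ≤ M := hM ▸ le_max_left _ _
  have hMb : J μ (1 / 2) ≤ M * J μ b := by
    rw [← div_le_iff₀ hJb, hM]
    exact le_max_right _ _
  have hKM : K ≤ M * K := le_mul_of_one_le_left (by linarith) hM1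
  refine ⟨M * K, hK.trans hKM, fun v x hv hx hxv => ?_⟩
  have hx0 : 0 < x := by linarith
  have hvx : v ≤ x * v := le_mul_of_one_le_left hv.le hx
  have hJv : 0 ≤ J μ v := J_nonneg h.em (by rw [abs_of_pos hv]; linarith)
  have hpw : x ^ K ≤ x ^ (M * K) := Real.rpow_le_rpow_of_exponent_le hx hKM
  have hpw1 : 1 ≤ x ^ (M * K) := Real.one_le_rpow hx (by nlinarith)
  have hfin : M * (K * x ^ K * J μ v) ≤ M * K * x ^ (M * K) * J μ v := by
    calc M * (K * x ^ K * J μ v) = (M * K * J μ v) * x ^ K := by ring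
      _ ≤ (M * K * J μ v) * x ^ (M * K) := mul_le_mul_of_nonneg_left hpw (by positivity)
      _ = _ := by ring
  rcases le_or_gt (x * v) b with h1 | h1
  · refine (hreg v x hv hx (h1.trans hba)).2.trans (le_trans ?_ hfin)
    exact le_mul_of_one_le_left (by positivity) hM1
  · have h2 : J μ (x * v) ≤ J μ (1 / 2) := J_mono' h.em (by positivity) hxv le_rfl
    rcases le_or_gt v b with h3 | h3
    · have h4 := (hreg v (b / v) hv ((one_le_div hv).2 h3) (by rw [div_mul_cancel₀ _ hv.ne']; exact hba)).2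
      rw [div_mul_cancel₀ _ hv.ne'] at h4
      have h5 : (b / v) ^ K ≤ x ^ K := Real.rpow_le_rpow (by positivity) (by
        rw [div_le_iff₀ hv]
        exact h1.le) (by linarith)
      have h6 : J μ b ≤ K * x ^ K * J μ v := h4.trans (by
        refine mul_le_mul_of_nonneg_right ?_ hJv
        exact mul_le_mul_of_nonneg_left h5 (by linarith))
      exact h2.trans (hMb.trans ((mul_le_mul_of_nonneg_left h6 (by linarith)).trans hfin))
    · have h4 : J μ b ≤ J μ v := J_mono' h.em hb0.le h3.le (by linarith)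
      have h5 : M * J μ v ≤ M * K * x ^ (M * K) * J μ v := by
        refine mul_le_mul_of_nonneg_right ?_ hJv
        calc M = M * 1 * 1 := by ring
          _ ≤ M * K * x ^ (M * K) := by
            refine mul_le_mul ?_ hpw1 (by norm_num) (by nlinarith)
            exact mul_le_mul_of_nonneg_left hK (by linarith)
      exact h2.trans (hMb.trans ((mul_le_mul_of_nonneg_left h4 (by linarith)).trans h5))

/-- The rate function is superlinear at `0`, uniformly in the slope. -/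
theorem J_lo21 (h : In μ c C n₀) (hF : HF2 μ) {ε : ℝ} (hε : 0 < ε) : ∃ κ : ℝ, 0 < κ ∧ κ ≤ 1 / 2 ∧ ∀ v : ℝ, 0 < v →
    v ≤ 1 / 2 → J μ (κ * v) ≤ ε * κ * J μ v := by
  obtain ⟨a, K, ha, hK, hreg⟩ := J_reg h hF
  obtain ⟨b, hb⟩ : ∃ b : ℝ, b = min a (1 / 2) := ⟨_, rfl⟩
  have hb0 : 0 < b := by rw [hb]; positivity
  have hba : b ≤ a := hb ▸ min_le_left _ _
  have hbh : b ≤ 1 / 2 := hb ▸ min_le_right _ _
  -- the slope below `b`
  have key : ∀ δ : ℝ, 0 < δ → ∃ κ : ℝ, 0 < κ ∧ κ ≤ 1 / 2 ∧ ∀ v : ℝ, 0 < v → v ≤ b → J μ (κ * v) ≤ δ * κ * J μ v := by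
    intro δ hδ
    obtain ⟨κ, hκ⟩ : ∃ κ : ℝ, κ = min (1 / 2) ((a * δ) ^ (1 / a)) := ⟨_, rfl⟩
    have hκ0 : 0 < κ := by rw [hκ]; positivity
    have hκh : κ ≤ 1 / 2 := hκ ▸ min_le_left _ _
    refine ⟨κ, hκ0, hκh, fun v hv hvb => ?_⟩
    have h1 := (hreg (κ * v) (1 / κ) (by positivity) ((one_le_div hκ0).2 (by linarith)) (by
      rw [← mul_assoc, one_div, inv_mul_cancel₀ hκ0.ne', one_mul]
      linarith)).1
    rw [← mul_assoc, one_div, inv_mul_cancel₀ hκ0.ne', one_mul] at h1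
    have h2 : κ ^ a ≤ a * δ := by
      have h3 : κ ≤ (a * δ) ^ (1 / a) := hκ ▸ min_le_right _ _
      calc κ ^ a ≤ ((a * δ) ^ (1 / a)) ^ a := Real.rpow_le_rpow hκ0.le h3 ha.le
        _ = a * δ := by
          rw [← Real.rpow_mul (by positivity), one_div, inv_mul_cancel₀ ha.ne', Real.rpow_one]
    have hJk : 0 ≤ J μ (κ * v) := J_nonneg h.em (by
      rw [abs_of_pos (by positivity)]
      nlinarith)
    have h4 : (κ⁻¹) ^ (1 + a) = (κ * κ ^ a)⁻¹ := by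
      rw [Real.inv_rpow hκ0.le, Real.rpow_add hκ0, Real.rpow_one]
    rw [h4] at h1
    have h5 : 0 < κ * κ ^ a := by positivity
    have h6 : a * J μ (κ * v) ≤ J μ v * (κ * κ ^ a) := by
      have := mul_le_mul_of_nonneg_right h1 h5.le
      have e : a * (κ * κ ^ a)⁻¹ * J μ (κ * v) * (κ * κ ^ a) = a * J μ (κ * v) := by
        field_simp
      rw [e] at this
      exact this
    have hJv : 0 ≤ J μ v := J_nonneg h.em (by rw [abs_of_pos hv]; linarith)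
    have h7 : J μ v * (κ * κ ^ a) ≤ J μ v * (κ * (a * δ)) :=
      mul_le_mul_of_nonneg_left (mul_le_mul_of_nonneg_left h2 hκ0.le) hJv
    have h8 : a * J μ (κ * v) ≤ a * (δ * κ * J μ v) := by
      calc a * J μ (κ * v) ≤ J μ v * (κ * (a * δ)) := h6.trans h7
        _ = a * (δ * κ * J μ v) := by ring
    exact le_of_mul_le_mul_left h8 ha
  obtain ⟨κ, hκ0, hκh, hκ⟩ := key (2 * b * ε) (by positivity)
  refine ⟨κ * (2 * b), by positivity, by nlinarith, fun v hv hvh => ?_⟩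
  have hv2 : 2 * b * v ≤ b := by nlinarith
  have h1 := hκ (2 * b * v) (by positivity) hv2
  have h2 : J μ (2 * b * v) ≤ J μ v := J_mono' h.em (by positivity) (by nlinarith) hvh
  have e : κ * (2 * b) * v = κ * (2 * b * v) := by ring
  rw [e]
  calc J μ (κ * (2 * b * v)) ≤ 2 * b * ε * κ * J μ (2 * b * v) := h1
    _ ≤ 2 * b * ε * κ * J μ v := mul_le_mul_of_nonneg_left h2 (by positivity)
    _ = ε * (κ * (2 * b)) * J μ v := by ring

/-- The tilt `h = g J(v) / v`: upper bound of the gain. -/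
theorem LL_le21 (hEM : Pool.Agent.W_7d29a1_h47.EM μ) (hnd : Pool.Agent.W_7d29a1_h47.Nondeg μ) {g v : ℝ} (hg0 : 0 < g)
    (hg1 : g < 1) (hv : 0 < v) (hvh : v ≤ 1 / 2) : LL μ (g * J μ v / v) ≤ g * J μ v := by
  have hJv : 0 < J μ v := J_pos hEM hnd hv hvh
  obtain ⟨t, ht⟩ : ∃ t : ℝ, t = g * J μ v / v := ⟨_, rfl⟩
  have ht0 : 0 < t := by rw [ht]; positivity
  rw [← ht]
  have htv : t * v = g * J μ v := by rw [ht, div_mul_cancel₀ _ hv.ne']
  rw [← htv]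
  obtain ⟨u, hu⟩ : ∃ u : ℝ, u = deriv (LL μ) t := ⟨_, rfl⟩
  have hu2 : |u| < 1 / 2 := hu ▸ LL_le hEM hnd t
  have h1 := LL_tangent hEM hnd t 0
  rw [LL_zero, ← hu] at h1
  -- `LL t ≤ t u`
  rcases le_or_gt u v with h2 | h2
  · nlinarith
  · exfalso
    have h3 := J_deriv hEM hnd t
    rw [← hu] at h3
    have h4 := LL_nonneg hEM t
    have h5 := J_mul hEM (v := v) (t := u / v) hv.le ((one_le_div hv).2 h2.le) (by
      rw [div_mul_cancel₀ _ hv.ne']
      exact (abs_lt.1 hu2).2.le)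
    rw [div_mul_cancel₀ _ hv.ne'] at h5
    -- `(u / v) J v ≤ J u ≤ t u = (u / v) g J v`
    have h6 : u / v * J μ v ≤ t * u := h5.trans (by linarith)
    have h7 : t * u = u / v * (g * J μ v) := by rw [← htv]; field_simp
    rw [h7] at h6
    have h8 : 0 < u / v := by
      have : 0 < u := hv.trans h2
      positivity
    have h9 := le_of_mul_le_mul_left h6 h8
    nlinarith

/-- The tilt of a slope. -/
theorem tilt21 (h : In μ c C n₀) (hF : HF2 μ) {g : ℝ} (hg0 : 0 < g) (hg1 : g < 1) :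
    ∃ κ : ℝ, 0 < κ ∧ κ ≤ 1 ∧ ∀ v : ℝ, 0 < v → v ≤ 1 / 2 →
      0 < th21 μ g v ∧ th21 μ g v * v = g * J μ v ∧ LL μ (th21 μ g v) ≤ g * J μ v ∧ κ * J μ v ≤ LL μ (th21 μ g v) ∧
      κ * (th21 μ g v * v) ≤ LL μ (th21 μ g v) := by
  obtain ⟨κ, hκ0, hκh, hκ⟩ := J_lo21 h hF (ε := g / 2) (by positivity)
  have hgk : 0 < g * κ / 2 := by positivity
  refine ⟨min (g * κ / 2) (κ / 2), lt_min hgk (by positivity), (min_le_right _ _).trans (by linarith), fun v hv hvh => ?_⟩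
  have hJv : 0 < J μ v := J_pos h.em h.nd hv hvh
  obtain ⟨t, ht⟩ : ∃ t : ℝ, t = th21 μ g v := ⟨_, rfl⟩
  rw [← ht]
  have ht' : t = g * J μ v / v := by rw [ht]; rfl
  have ht0 : 0 < t := by rw [ht']; positivity
  have htv : t * v = g * J μ v := by rw [ht', div_mul_cancel₀ _ hv.ne']
  have hlo : g * κ / 2 * J μ v ≤ LL μ t := by
    have h1 := J_ge h.em (v := κ * v) (by
      rw [abs_of_pos (by positivity)]
      nlinarith) t
    have h2 := hκ v hv hvh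
    have h3 : t * (κ * v) = κ * (g * J μ v) := by rw [← htv]; ring
    rw [h3] at h1
    have h4 : g / 2 * κ * J μ v = κ * (g * J μ v) - g * κ / 2 * J μ v := by ring
    rw [h4] at h2
    linarith
  refine ⟨ht0, htv, by rw [ht']; exact LL_le21 h.em h.nd hg0 hg1 hv hvh, ?_, ?_⟩
  · exact (mul_le_mul_of_nonneg_right (min_le_left _ _) hJv.le).trans hlo
  · rw [htv]
    refine (mul_le_mul_of_nonneg_right (min_le_right _ _) (by positivity)).trans ?_
    refine le_trans (le_of_eq (by ring)) hlo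

/-- The scale of a small slope. -/
theorem scale21 (h : In μ c C n₀) (n₁ : ℕ) : ∃ v₀ : ℝ, 0 < v₀ ∧ v₀ ≤ 1 / 2 ∧ ∀ v : ℝ, 0 < v → v ≤ v₀ →
    ∃ r : ℕ, n₁ ≤ r ∧ 1 ≤ r ∧ vA μ 1 r ≤ v ∧ v ≤ 2 * vA μ 1 r ∧ EE μ r ≤ r * J μ v ∧ r * J μ v ≤ 2 * EE μ r := by
  obtain ⟨n₂, hn₂⟩ := eventually_atTop.1 (vA_lt_half (μ := μ) h.em h.nd (A := 1) zero_le_one)
  obtain ⟨n₃, hn₃⟩ : ∃ n₃ : ℕ, n₃ = max (max n₁ n₂) 1 := ⟨_, rfl⟩
  have h31 : n₁ ≤ n₃ := hn₃ ▸ (le_max_left _ _).trans (le_max_left _ _)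
  have h32 : n₂ ≤ n₃ := hn₃ ▸ (le_max_right _ _).trans (le_max_left _ _)
  have h33 : 1 ≤ n₃ := hn₃ ▸ le_max_right _ _
  refine ⟨vA μ 1 n₃, vA_pos h.em one_pos _, vA_le h.em zero_le_one _, fun v hv hv3 => ?_⟩
  have hvh : v ≤ 1 / 2 := hv3.trans (vA_le h.em zero_le_one _)
  have hJv : 0 < J μ v := J_pos h.em h.nd hv hvh
  obtain ⟨m, hm3, hvm, hlt⟩ := Pool.Agent.W_7d29a1_SL.idx h n₃ hv hv3
  have hm1 : 1 ≤ m := h33.trans hm3
  have hmR : (1 : ℝ) ≤ m := by exact_mod_cast hm1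
  have hvAm := hn₂ m (h32.trans hm3)
  have e1 := vA_eq' h.em zero_le_one hvAm
  have hvAm1 := hn₂ (m + 1) (by omega)
  have e2 := vA_eq' h.em zero_le_one hvAm1
  rw [one_mul] at e1 e2
  have hl := (hlt (m + 1) (by omega)).le
  have hvp := vA_pos (μ := μ) h.em (A := 1) one_pos (m + 1)
  have hJ1 : J μ v ≤ J μ (vA μ 1 m) := J_mono' h.em hv.le hvm hvAm.le
  have hJ2 : J μ (vA μ 1 (m + 1)) ≤ J μ v := J_mono' h.em hvp.le hl hvh
  have hE : EE μ m ≤ EE μ (m + 1) := EE_mono (by omega)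
  refine ⟨m + 1, by omega, by omega, hl, ?_, ?_, ?_⟩
  · -- `v ≤ vA m ≤ 2 vA (m + 1)`
    refine hvm.trans ?_
    by_contra hcon
    push Not at hcon
    have h1 := J_mul h.em (v := vA μ 1 (m + 1)) (t := 2) hvp.le one_le_two (hcon.le.trans hvAm.le)
    have h2 := J_strict h.em h.nd (by positivity) hcon hvAm.le
    have h3 : (m : ℝ) * (2 * J μ (vA μ 1 (m + 1))) < EE μ m := by
      rw [← e1]
      exact mul_lt_mul_of_pos_left (lt_of_le_of_lt h1 h2) (by linarith)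
    push_cast at e2
    have h4 : 0 < J μ (vA μ 1 (m + 1)) := J_pos h.em h.nd hvp hvAm1.le
    nlinarith
  · rw [← e2]
    exact mul_le_mul_of_nonneg_left hJ2 (by positivity)
  · push_cast
    have h5 : (m : ℝ) * J μ v ≤ EE μ m := by
      rw [← e1]
      exact mul_le_mul_of_nonneg_left hJ1 (by linarith)
    nlinarith

/-- The pair (tilt, scale) is admissible. -/
theorem adm21 {g v : ℝ} {r : ℕ} (hg0 : 0 < g) (hv : 0 < v) (hr : 1 ≤ r) (h1 : vA μ 1 r ≤ v) (h2 : v ≤ 2 * vA μ 1 r)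
    (h3 : EE μ r ≤ r * J μ v) (h4 : r * J μ v ≤ 2 * EE μ r) :
    g / 2 * EE μ r ≤ th21 μ g v * wd μ r ∧ th21 μ g v * wd μ r ≤ 2 * g * EE μ r := by
  have hr0 : (0 : ℝ) < r := by exact_mod_cast hr
  have hE := EE_pos (μ := μ) r
  have hJ : 0 < J μ v := by
    by_contra hcon
    push Not at hcon
    have : (r : ℝ) * J μ v ≤ 0 := mul_nonpos_of_nonneg_of_nonpos hr0.le hcon
    linarith
  have htv : th21 μ g v * v = g * J μ v := by
    unfold th21
    rw [div_mul_cancel₀ _ hv.ne']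
  have ht0 : 0 < th21 μ g v := by
    unfold th21
    positivity
  unfold wd
  constructor
  · calc g / 2 * EE μ r ≤ g / 2 * (r * J μ v) := mul_le_mul_of_nonneg_left h3 (by positivity)
      _ = (th21 μ g v * v) * r / 2 := by rw [htv]; ring
      _ = th21 μ g v * (v * r) / 2 := by ring
      _ ≤ th21 μ g v * ((2 * vA μ 1 r) * r) / 2 := by
        have := mul_le_mul_of_nonneg_left (mul_le_mul_of_nonneg_right h2 hr0.le) ht0.le
        linarith
      _ = _ := by ring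
  · calc th21 μ g v * (vA μ 1 r * r) ≤ th21 μ g v * (v * r) :=
        mul_le_mul_of_nonneg_left (mul_le_mul_of_nonneg_right h1 hr0.le) ht0.le
      _ = g * (r * J μ v) := by rw [← mul_assoc, htv]; ring
      _ ≤ g * (2 * EE μ r) := mul_le_mul_of_nonneg_left h4 hg0.le
      _ = _ := by ring

theorem Jt_mono21 (h : In μ c C n₀) {v₀ u v : ℝ} (hv₀ : 0 < v₀) (hv₀h : v₀ ≤ 1 / 2) (hu : 0 ≤ u) (huv : u ≤ v)
    (hvh : v ≤ 1 / 2) : Jt21 μ v₀ u ≤ Jt21 μ v₀ v := by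
  have hJ0 : 0 < J μ v₀ := J_pos h.em h.nd hv₀ hv₀h
  unfold Jt21
  rcases le_or_gt v v₀ with h1 | h1
  · rw [if_pos (huv.trans h1), if_pos h1]
    exact J_mono' h.em hu huv hvh
  · rw [if_neg (not_le.2 h1)]
    rcases le_or_gt u v₀ with h2 | h2
    · rw [if_pos h2]
      have h3 : J μ u ≤ J μ v₀ := J_mono' h.em hu h2 hv₀h
      have h4 : J μ v₀ / v₀ * v₀ ≤ J μ v₀ / v₀ * v := mul_le_mul_of_nonneg_left h1.le (by positivity)
      rw [div_mul_cancel₀ _ hv₀.ne'] at h4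
      exact h3.trans h4
    · rw [if_neg (not_le.2 h2)]
      exact mul_le_mul_of_nonneg_left huv (by positivity)

/-- `J (min v v₀) ≤ Jt v`, and the tilt of the slope `min v v₀` times a slope `u ≥ v` is at most `g Jt u`. -/
theorem Jt_ge21 (h : In μ c C n₀) {v₀ v u g : ℝ} (hv₀ : 0 < v₀) (hv₀h : v₀ ≤ 1 / 2) (hv : 0 < v) (hvu : v ≤ u)
    (huh : u ≤ 1 / 2) (hg : 0 < g) : th21 μ g (min v v₀) * u ≤ g * Jt21 μ v₀ u := by
  have hw0 : 0 < min v v₀ := lt_min hv hv₀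
  have hu0 : 0 < u := hv.trans_le hvu
  have key : J μ (min v v₀) * u ≤ Jt21 μ v₀ u * min v v₀ := by
    unfold Jt21
    rcases le_or_gt u v₀ with h1 | h1
    · rw [if_pos h1]
      exact Pool.Agent.W_7d29a1_SL.J_slope h.em hw0 ((min_le_left _ _).trans hvu) huh
    · rw [if_neg (not_le.2 h1)]
      have h2 := Pool.Agent.W_7d29a1_SL.J_slope h.em hw0 (min_le_right v v₀) hv₀h
      -- `J w v₀ ≤ J v₀ w`
      have h3 : J μ v₀ / v₀ * u * min v v₀ = (J μ v₀ * min v v₀) * u / v₀ := by ring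
      rw [h3, le_div_iff₀ hv₀]
      calc J μ (min v v₀) * u * v₀ = (J μ (min v v₀) * v₀) * u := by ring
        _ ≤ (J μ v₀ * min v v₀) * u := mul_le_mul_of_nonneg_right h2 hu0.le
  unfold th21
  rw [div_mul_eq_mul_div, div_le_iff₀ hw0, mul_assoc, mul_assoc]
  exact mul_le_mul_of_nonneg_left key hg.le

theorem Jt_ge' (h : In μ c C n₀) {v₀ v : ℝ} (hv₀ : 0 < v₀) (hv₀h : v₀ ≤ 1 / 2) (hv : 0 < v) (hvh : v ≤ 1 / 2) :
    J μ (min v v₀) ≤ Jt21 μ v₀ v := by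
  unfold Jt21
  rcases le_or_gt v v₀ with h1 | h1
  · rw [if_pos h1, min_eq_left h1]
  · rw [if_neg (not_le.2 h1), min_eq_right h1.le]
    have hJ0 : 0 < J μ v₀ := J_pos h.em h.nd hv₀ hv₀h
    have h4 : J μ v₀ / v₀ * v₀ ≤ J μ v₀ / v₀ * v := mul_le_mul_of_nonneg_left h1.le (by positivity)
    rwa [div_mul_cancel₀ _ hv₀.ne'] at h4

end Pool.Agent.W_7d29a1_Z21
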