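import Pool.Agent.W_7d29a1_Z21.Iter

/-!
STORM Z, Lemma NS: the top scale, and the deterministic theorem. (helper21)
-/

namespace Pool.Agent.W_7d29a1_Z21

open MeasureTheory ProbabilityTheory Filter Topology
open Pool.Agent.W_7d29a1_F Pool.Agent.W_7d29a1_h4g Pool.Agent.W_7d29a1_G Pool.Agent.W_7d29a1_L Pool.Agent.W_7d29a1_SR
open Pool.Agent.W_7d29a1_SL (rho mp_rho)
open Pool.Agent.W_7d29a1_g (rv)

variable {μ : Measure ℝ} [IsProbabilityMeasure μ] {c C : ℝ} {n₀ : ℕ}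

/-- The continuation is comparable with the rate function. -/
theorem Jt_cv21 (h : In μ c C n₀) {v₀ : ℝ} (hv₀ : 0 < v₀) (hv₀h : v₀ ≤ 1 / 2) : ∃ cv : ℝ, 0 < cv ∧ ∀ v : ℝ, 0 ≤ v → v ≤ 1 / 2 →
    cv * J μ v ≤ Jt21 μ v₀ v := by
  have hJh : 0 < J μ (1 / 2) := J_pos h.em h.nd (by norm_num) le_rfl
  have hJv₀ : 0 < J μ v₀ := J_pos h.em h.nd hv₀ hv₀h
  have hcv1 : J μ v₀ / J μ (1 / 2) ≤ 1 := by
    rw [div_le_one hJh]
    exact J_mono' h.em hv₀.le hv₀h le_rfl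
  refine ⟨J μ v₀ / J μ (1 / 2), by positivity, fun v hv hvh => ?_⟩
  have hJv : 0 ≤ J μ v := J_nonneg h.em (by rw [abs_of_nonneg hv]; exact hvh)
  rcases hv.eq_or_lt with h0 | h0
  · unfold Jt21
    rw [if_pos (by rw [← h0]; exact hv₀.le)]
    exact mul_le_of_le_one_left hJv hcv1
  refine le_trans ?_ (Jt_ge' h hv₀ hv₀h h0 hvh)
  rcases le_total v v₀ with h1 | h1
  · rw [min_eq_left h1]
    exact mul_le_of_le_one_left hJv hcv1
  · rw [min_eq_right h1, div_mul_eq_mul_div, div_le_iff₀ hJh]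
    exact mul_le_mul_of_nonneg_left (J_mono' h.em hv hvh le_rfl) hJv₀.le

/-- The energy of a displacement, both signs. -/
theorem en21 (h : In μ c C n₀) {b Q d g v₀ : ℝ} {n₁ N : ℕ} {η : Env} (hE : Env21 μ c b Q d g v₀ n₁ N η)
    (hE' : Env21 μ c b Q d g v₀ n₁ N (rho 0 η)) (hb : 0 ≤ b) (hv₀ : 0 < v₀) {t : ℕ} {y : ℤ} (ht : 1 ≤ t) (htN : t ≤ N)
    (hy0 : 0 ≤ y) (hy1 : y ≤ t) :
    b * (t * Jt21 μ v₀ (|(y : ℝ) - t / 2| / t)) - Q * EE μ t ≤ X μ 0 η ((0 : ℤ), (0 : ℤ)) t y := by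
  rcases lt_trichotomy (t : ℤ) (2 * y) with h1 | h1 | h1
  · have h2 := hE.en 0 0 t y le_rfl (by omega) (by simp) ht h1 hy1
    have h3 : (t : ℝ) < 2 * y := by exact_mod_cast h1
    rw [abs_of_pos (by linarith)]
    exact h2
  · have h3 : (t : ℝ) = 2 * y := by exact_mod_cast h1
    have h4 : |(y : ℝ) - t / 2| / t = 0 := by
      rw [h3]
      have : (y : ℝ) - 2 * y / 2 = 0 := by ring
      rw [this, abs_zero, zero_div]
    rw [h4]
    have h5 : Jt21 μ v₀ 0 = 0 := by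
      unfold Jt21
      rw [if_pos hv₀.le, J_zero h.em]
    rw [h5, mul_zero, mul_zero]
    have h6 := hE.lu 0 0 t le_rfl (by omega) (by simp) ht
    have h7 : W μ 0 η ((0 : ℤ), (0 : ℤ)) t y ≤ Real.exp (V μ 0 η ((0 : ℤ), (0 : ℤ)) t) := by
      have := WS_le_exp_V (μ := μ) (s := 0) η ((0 : ℤ), (0 : ℤ)) t {y}
      unfold WS at this
      rwa [Finset.sum_singleton] at this
    have h8 : Real.log (W μ 0 η ((0 : ℤ), (0 : ℤ)) t y) ≤ V μ 0 η ((0 : ℤ), (0 : ℤ)) t := by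
      rw [← Real.log_exp (V μ 0 η ((0 : ℤ), (0 : ℤ)) t)]
      exact Real.log_le_log (W_pos _ _ hy0 hy1) h7
    unfold X
    linarith
  · have h2 := hE'.en 0 0 t (t - y) le_rfl (by omega) (by simp) ht (by omega) (by omega)
    have h3 : 2 * (y : ℝ) < t := by exact_mod_cast h1
    have h4 : X μ 0 (rho 0 η) ((0 : ℤ), (0 : ℤ)) t (t - y) = X μ 0 η ((0 : ℤ), (0 : ℤ)) t y := by
      unfold X
      rw [W_rho21]
      have e1 : (0 : ℤ) - 0 = 0 := by ring
      have e2 : (t : ℤ) - (t - y) = y := by ring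
      rw [e1, e2]
    rw [h4] at h2
    have h5 : (((t : ℤ) - y : ℤ) : ℝ) - t / 2 = |(y : ℝ) - t / 2| := by
      rw [abs_of_neg (by linarith)]
      push_cast
      ring
    rw [h5] at h2
    exact h2

/-- The positions of the path. -/
theorem pos21 (h : In μ c C n₀) {b Q d g v₀ : ℝ} {n₁ N : ℕ} {η : Env} {P : ℕ → ℤ} (hE : Env21 μ c b Q d g v₀ n₁ N η)
    (hE' : Env21 μ c b Q d g v₀ n₁ N (rho 0 η)) (hb : 0 ≤ b) (hv₀ : 0 < v₀) (hQ : 1 ≤ Q) (hty : Typ21 μ Q N η P)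
    (hP : Pa21 N P) (h0 : ∀ i, i ≤ N → 0 ≤ P i ∧ P i ≤ i) (hX : X μ 0 η ((0 : ℤ), (0 : ℤ)) N (P N) ≤ Q * EE μ N)
    {t : ℕ} (ht : 1 ≤ t) (htN : t ≤ N) :
    b * (t * Jt21 μ v₀ (|(P t : ℝ) - t / 2| / t)) ≤ (5 + C) * (Q * EE μ N) := by
  obtain ⟨m, rfl⟩ : ∃ m, N = t + m := ⟨N - t, by omega⟩
  have hP0 : P 0 = 0 := by
    have := h0 0 (by omega)
    omega
  have hle := hP.le t m le_rfl
  have hEN := one_le_EE (μ := μ) (t + m)
  have h1 := en21 h hE hE' hb hv₀ ht (by omega) (h0 t (by omega)).1 (h0 t (by omega)).2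
  have hEt : EE μ t ≤ EE μ (t + m) := EE_mono (by omega)
  have hEm : EE μ m ≤ EE μ (t + m) := EE_mono (by omega)
  -- the second piece
  have h2 : -(Q * EE μ (t + m)) ≤ X μ 0 η ((t : ℤ), P t) m (P (t + m) - P t) := by
    have h7 : W μ 0 η ((t : ℤ), P t) m (P (t + m) - P t) ≤ Real.exp (V μ 0 η ((t : ℤ), P t) m) := by
      have := WS_le_exp_V (μ := μ) (s := 0) η ((t : ℤ), P t) m {P (t + m) - P t}
      unfold WS at this
      rwa [Finset.sum_singleton] at this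
    have h8 : Real.log (W μ 0 η ((t : ℤ), P t) m (P (t + m) - P t)) ≤ V μ 0 η ((t : ℤ), P t) m := by
      rw [← Real.log_exp (V μ 0 η ((t : ℤ), P t) m)]
      exact Real.log_le_log (W_pos _ _ (by omega) (by omega)) h7
    have h9 : V μ 0 η ((t : ℤ), P t) m ≤ Q * EE μ (t + m) := by
      rcases Nat.eq_zero_or_pos m with hm | hm
      · subst hm
        rw [V_zero]
        positivity
      · refine (hE.lu t (P t) m (by omega) (by push_cast; omega) ?_ hm).trans (mul_le_mul_of_nonneg_left hEm (by linarith))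
        have := h0 t (by omega)
        rw [abs_le]
        push_cast
        constructor <;> omega
    unfold X
    linarith
  -- typicality
  have hty' := hty 0 t m (by omega)
  rw [Nat.zero_add, hP0] at hty'
  have e0 : ((0 : ℕ) : ℤ) = 0 := rfl
  rw [e0] at hty'
  have hWt : 0 < W μ 0 η ((0 : ℤ), (0 : ℤ)) t (P t) := W_pos _ _ (h0 t (by omega)).1 (h0 t (by omega)).2
  have hWm : 0 < W μ 0 η ((t : ℤ), P t) m (P (t + m) - P t) := W_pos _ _ (by omega) (by omega)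
  have hWN : 0 < W μ 0 η ((0 : ℤ), (0 : ℤ)) (t + m) (P (t + m)) :=
    W_pos _ _ (h0 (t + m) le_rfl).1 (by exact_mod_cast (h0 (t + m) le_rfl).2)
  have h3 : W μ 0 η ((0 : ℤ), (0 : ℤ)) (t + m) (P (t + m)) ≤ ((t : ℝ) + 1) * (Real.exp Q *
      (W μ 0 η ((0 : ℤ), (0 : ℤ)) t (P t) * W μ 0 η ((t : ℤ), P t) m (P (t + m) - P t))) := by
    rw [W_add]
    calc _ ≤ ∑ _k ∈ Finset.Icc (0 : ℤ) t, Real.exp Q *
          (W μ 0 η ((0 : ℤ), (0 : ℤ)) t (P t) * W μ 0 η ((t : ℤ), P t) m (P (t + m) - P t)) := by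
          refine Finset.sum_le_sum fun k hk => ?_
          rw [Finset.mem_Icc] at hk
          have h4 := hty' k hk.1 hk.2
          simp only [zero_add, sub_zero] at h4 ⊢
          exact h4
      _ = _ := by
          rw [Finset.sum_const, Int.card_Icc, nsmul_eq_mul]
          have : ((t : ℤ) + 1 - 0).toNat = t + 1 := by omega
          rw [this]
          push_cast
          ring
  have ht0 : (0 : ℝ) < (t : ℝ) + 1 := by positivity
  have h4 : Real.log (W μ 0 η ((0 : ℤ), (0 : ℤ)) (t + m) (P (t + m))) ≤ Real.log ((t : ℝ) + 1) + (Q +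
      (Real.log (W μ 0 η ((0 : ℤ), (0 : ℤ)) t (P t)) + Real.log (W μ 0 η ((t : ℤ), P t) m (P (t + m) - P t)))) := by
    have := Real.log_le_log hWN h3
    rwa [Real.log_mul ht0.ne' (by positivity), Real.log_mul (Real.exp_pos _).ne' (by positivity), Real.log_exp,
      Real.log_mul hWt.ne' hWm.ne'] at this
  have h5 : Real.log ((t : ℝ) + 1) ≤ (1 + C) * EE μ (t + m) := by
    have htR : (1 : ℝ) ≤ t := by exact_mod_cast ht
    have h6 : Real.log ((t : ℝ) + 1) ≤ Real.log (2 * t) := Real.log_le_log ht0 (by linarith)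
    rw [Real.log_mul (by norm_num) (by positivity)] at h6
    have h7 := h.lg t ht
    have h8 := Real.log_two_lt_d9
    have hC1 := h.C1
    have h9 : C * EE μ t ≤ C * EE μ (t + m) := mul_le_mul_of_nonneg_left hEt (by linarith)
    linarith
  unfold X at hX h1 h2
  have h6 : Q * EE μ t ≤ Q * EE μ (t + m) := mul_le_mul_of_nonneg_left hEt (by linarith)
  have h7 : Q * 1 ≤ Q * EE μ (t + m) := mul_le_mul_of_nonneg_left hEN (by linarith)
  have h8 : (1 + C) * EE μ (t + m) ≤ (1 + C) * (Q * EE μ (t + m)) := by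
    refine mul_le_mul_of_nonneg_left ?_ (by have := h.C1; linarith)
    exact le_mul_of_one_le_left (by linarith) hQ
  linarith

/-- The centred displacement in units of time. -/
theorem top21 (h : In μ c C n₀) (hF : HF2 μ) {b v₀ : ℝ} (hb : 0 < b) (hv₀ : 0 < v₀) (hv₀h : v₀ ≤ 1 / 2) (T : ℕ) (hT : 1 ≤ T) :
    ∃ Λt : ℝ, 0 < Λt ∧ ∀ (d g : ℝ) (n₁ : ℕ) (Q : ℝ), 1 ≤ Q → ∀ (N : ℕ) (η : Env) (P : ℕ → ℤ),
    Env21 μ c b Q d g v₀ n₁ N η → Env21 μ c b Q d g v₀ n₁ N (rho 0 η) → Typ21 μ Q N η P → Pa21 N P →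
    (∀ i, i ≤ N → 0 ≤ P i ∧ P i ≤ i) → X μ 0 η ((0 : ℤ), (0 : ℤ)) N (P N) ≤ Q * EE μ N →
    ∀ i n : ℕ, 1 ≤ n → i + n ≤ N → N < 2 * (T * n) → ph21 μ n (P (i + n) - P i) ≤ Λt * Q * EE μ n := by
  obtain ⟨cv, hcv, hcvJ⟩ := Jt_cv21 (μ := μ) h hv₀ hv₀h
  obtain ⟨K, hK, hup⟩ := J_up21 h hF
  have hC1 := h.C1
  have hTR : (1 : ℝ) ≤ T := by exact_mod_cast hT
  obtain ⟨B, hB⟩ : ∃ B : ℝ, B = K * (4 * T) ^ K := ⟨_, rfl⟩
  have hB0 : 0 < B := by rw [hB]; positivity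
  refine ⟨B * ((5 + C) / (b * cv)) * (4 * T), by positivity, fun d g n₁ Q hQ N η P hE hE' hty hP h0 hX i n hn hin hNT => ?_⟩
  have hEN := EE_pos (μ := μ) N
  have hN1 : 1 ≤ N := by omega
  have hN0 : (0 : ℝ) < N := by exact_mod_cast hN1
  have hn0 : (0 : ℝ) < n := by exact_mod_cast hn
  obtain ⟨M, hM⟩ : ∃ M : ℝ, M = (5 + C) / (b * cv) * (Q * EE μ N) := ⟨_, rfl⟩
  have hM0 : 0 ≤ M := by rw [hM]; positivity
  -- the positions
  have hpos : ∀ t : ℕ, t ≤ N → |(P t : ℝ) - t / 2| / N ≤ 1 / 2 ∧ N * J μ (|(P t : ℝ) - t / 2| / N) ≤ M := by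
    intro t ht
    have h1 := h0 t ht
    have h2 : (0 : ℝ) ≤ P t := by exact_mod_cast h1.1
    have h3 : (P t : ℝ) ≤ t := by exact_mod_cast h1.2
    have h4 : |(P t : ℝ) - t / 2| ≤ t / 2 := by
      rw [abs_le]
      constructor <;> linarith
    have htN : (t : ℝ) ≤ N := by exact_mod_cast ht
    have h5 : |(P t : ℝ) - t / 2| / N ≤ 1 / 2 := by
      rw [div_le_iff₀ hN0]
      linarith
    refine ⟨h5, ?_⟩
    rcases Nat.eq_zero_or_pos t with h6 | h6
    · subst h6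
      have h7 : |(P 0 : ℝ) - ((0 : ℕ) : ℝ) / 2| / N = 0 := by
        have : |(P 0 : ℝ) - ((0 : ℕ) : ℝ) / 2| = 0 := le_antisymm (h4.trans (by simp)) (abs_nonneg _)
        rw [this, zero_div]
      rw [h7, J_zero h.em, mul_zero]
      exact hM0
    · have ht0 : (0 : ℝ) < t := by exact_mod_cast h6
      have h7 := pos21 h hE hE' hb.le hv₀ hQ hty hP h0 hX h6 ht
      obtain ⟨x, hx⟩ : ∃ x : ℝ, x = |(P t : ℝ) - t / 2| := ⟨_, rfl⟩
      rw [← hx] at h4 h5 h7 ⊢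
      have hx0 : 0 ≤ x := hx ▸ abs_nonneg _
      have h8 : x / t ≤ 1 / 2 := by
        rw [div_le_iff₀ ht0]
        linarith
      have h9 := hcvJ (x / t) (by positivity) h8
      have h10 : N * J μ (x / N) ≤ t * J μ (x / t) := by
        have h11 := J_mul h.em (v := x / N) (t := N / t) (by positivity) ((one_le_div ht0).2 htN) (by
          rw [div_mul_div_comm, mul_comm (N : ℝ) x, mul_div_mul_right _ _ hN0.ne']
          exact h8)
        rw [div_mul_div_comm, mul_comm (N : ℝ) x, mul_div_mul_right _ _ hN0.ne', div_mul_eq_mul_div, div_le_iff₀ ht0] at h11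
        linarith
      have h12 : b * (t * (cv * J μ (x / t))) ≤ (5 + C) * (Q * EE μ N) := by
        refine le_trans ?_ h7
        exact mul_le_mul_of_nonneg_left (mul_le_mul_of_nonneg_left h9 ht0.le) hb.le
      have h13 : b * cv * (N * J μ (x / N)) ≤ (5 + C) * (Q * EE μ N) := by
        calc b * cv * (N * J μ (x / N)) ≤ b * cv * (t * J μ (x / t)) := mul_le_mul_of_nonneg_left h10 (by positivity)
          _ = b * (t * (cv * J μ (x / t))) := by ring
          _ ≤ _ := h12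
      rw [hM, div_mul_eq_mul_div, le_div_iff₀ (by positivity)]
      linarith
  -- the displacement
  obtain ⟨u1, hu1⟩ : ∃ u1 : ℝ, u1 = |(P i : ℝ) - i / 2| / N := ⟨_, rfl⟩
  obtain ⟨u2, hu2⟩ : ∃ u2 : ℝ, u2 = |(P (i + n) : ℝ) - ((i + n : ℕ) : ℝ) / 2| / N := ⟨_, rfl⟩
  have p1 := hpos i (by omega)
  have p2 := hpos (i + n) hin
  rw [← hu1] at p1
  rw [← hu2] at p2
  have hu10 : 0 ≤ u1 := by rw [hu1]; positivity
  have hu20 : 0 ≤ u2 := by rw [hu2]; positivity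
  obtain ⟨u, hu⟩ : ∃ u : ℝ, u = max u1 u2 := ⟨_, rfl⟩
  have hu0 : 0 ≤ u := by rw [hu]; exact le_max_of_le_left hu10
  have huh : u ≤ 1 / 2 := by rw [hu]; exact max_le p1.1 p2.1
  have huM : N * J μ u ≤ M := by
    rcases le_total u1 u2 with h1 | h1
    · rw [hu, max_eq_right h1]
      exact p2.2
    · rw [hu, max_eq_left h1]
      exact p1.2
  obtain ⟨v, hv⟩ : ∃ v : ℝ, v = |((P (i + n) - P i : ℤ) : ℝ) - n / 2| / n := ⟨_, rfl⟩
  have hv0 : 0 ≤ v := by rw [hv]; positivity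
  have hle := hP.le i n hin
  have hvh : v ≤ 1 / 2 := by
    rw [hv, div_le_iff₀ hn0, abs_le]
    have h1 : (0 : ℝ) ≤ ((P (i + n) - P i : ℤ) : ℝ) := by
      exact_mod_cast (by omega : 0 ≤ P (i + n) - P i)
    have h2 : ((P (i + n) - P i : ℤ) : ℝ) ≤ n := by
      exact_mod_cast (by omega : P (i + n) - P i ≤ n)
    constructor <;> linarith
  have hvu : v ≤ 4 * T * u := by
    rw [hv, div_le_iff₀ hn0]
    have h1 : |((P (i + n) - P i : ℤ) : ℝ) - n / 2| ≤ |(P (i + n) : ℝ) - ((i + n : ℕ) : ℝ) / 2| + |(P i : ℝ) - i / 2| := by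
      have e : ((P (i + n) - P i : ℤ) : ℝ) - n / 2 = ((P (i + n) : ℝ) - ((i + n : ℕ) : ℝ) / 2) - ((P i : ℝ) - i / 2) := by
        push_cast
        ring
      rw [e]
      exact abs_sub _ _
    have h2 : |(P (i + n) : ℝ) - ((i + n : ℕ) : ℝ) / 2| = u2 * N := by rw [hu2, div_mul_cancel₀ _ hN0.ne']
    have h3 : |(P i : ℝ) - i / 2| = u1 * N := by rw [hu1, div_mul_cancel₀ _ hN0.ne']
    have h4 : u1 ≤ u := hu ▸ le_max_left _ _
    have h5 : u2 ≤ u := hu ▸ le_max_right _ _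
    have h6 : (N : ℝ) ≤ 2 * (T * n) := by exact_mod_cast hNT.le
    rw [h2, h3] at h1
    calc |((P (i + n) - P i : ℤ) : ℝ) - n / 2| ≤ u2 * N + u1 * N := h1
      _ ≤ u * N + u * N := add_le_add (mul_le_mul_of_nonneg_right h5 hN0.le) (mul_le_mul_of_nonneg_right h4 hN0.le)
      _ = 2 * u * N := by ring
      _ ≤ 2 * u * (2 * (T * n)) := mul_le_mul_of_nonneg_left h6 (by positivity)
      _ = 4 * T * u * n := by ring
  have hJu0 : 0 ≤ J μ u := J_nonneg h.em (by rw [abs_of_nonneg hu0]; exact huh)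
  have hJv : J μ v ≤ B * J μ u := by
    rcases le_total v u with h1 | h1
    · refine (J_mono' h.em hv0 h1 huh).trans (le_mul_of_one_le_left hJu0 ?_)
      rw [hB]
      calc (1 : ℝ) = 1 * 1 := by norm_num
        _ ≤ K * (4 * T) ^ K := mul_le_mul hK (Real.one_le_rpow (by linarith) (by linarith)) zero_le_one (by linarith)
    · rcases hu0.eq_or_lt with h2 | h2
      · rw [← h2, mul_zero] at hvu
        have h3 : v = 0 := le_antisymm hvu hv0
        rw [h3, J_zero h.em]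
        positivity
      · have h3 := hup u (v / u) h2 ((one_le_div h2).2 h1) (by rw [div_mul_cancel₀ _ h2.ne']; exact hvh)
        rw [div_mul_cancel₀ _ h2.ne'] at h3
        refine h3.trans (mul_le_mul_of_nonneg_right ?_ hJu0)
        rw [hB]
        refine mul_le_mul_of_nonneg_left (Real.rpow_le_rpow (by positivity) ?_ (by linarith)) (by linarith)
        rw [div_le_iff₀ h2]
        exact hvu
  have hEE : EE μ N ≤ 4 * T * EE μ n := by
    have h1 := scale_b h hn (show n ≤ N by omega)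
    have h6 : (N : ℝ) ≤ 2 * (T * n) := by exact_mod_cast hNT.le
    have hEn := EE_pos (μ := μ) n
    have h7 : (n : ℝ) * EE μ N ≤ n * (4 * T * EE μ n) := by
      calc (n : ℝ) * EE μ N ≤ 2 * (N * EE μ n) := h1
        _ ≤ 2 * (2 * (T * n) * EE μ n) := by
          have := mul_le_mul_of_nonneg_right h6 hEn.le
          linarith
        _ = n * (4 * T * EE μ n) := by ring
    exact le_of_mul_le_mul_left h7 hn0
  unfold ph21
  rw [← hv]
  have hnN : (n : ℝ) ≤ N := by exact_mod_cast (by omega : n ≤ N)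
  calc (n : ℝ) * J μ v ≤ n * (B * J μ u) := mul_le_mul_of_nonneg_left hJv hn0.le
    _ = B * (n * J μ u) := by ring
    _ ≤ B * (N * J μ u) := mul_le_mul_of_nonneg_left (mul_le_mul_of_nonneg_right hnN hJu0) hB0.le
    _ ≤ B * M := mul_le_mul_of_nonneg_left huM hB0.le
    _ = B * ((5 + C) / (b * cv)) * Q * EE μ N := by rw [hM]; ring
    _ ≤ B * ((5 + C) / (b * cv)) * Q * (4 * T * EE μ n) := mul_le_mul_of_nonneg_left hEE (by positivity)
    _ = _ := by ring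

end Pool.Agent.W_7d29a1_Z21
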